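import Mathlib

/-!
Definitions for extension complexity of Voronoi cells of lattices.
-/

namespace Q54.LatXC

open Module

/-- A polytope in `ℝ^k`: a bounded set that is a finite intersection of closed half-spaces. -/
def IsPolytope {k : ℕ} (Q : Set (Fin k → ℝ)) : Prop :=
  Bornology.IsBounded Q ∧
    ∃ (m : ℕ) (A : Fin m → (Fin k → ℝ) →ₗ[ℝ] ℝ) (b : Fin m → ℝ), Q = {x | ∀ i, A i x ≤ b i}

/-- `F` is a facet of `Q`: a nonempty exposed face (the set of points of `Q` where some linear
functional attains its maximum over `Q`) whose dimension is one less than the dimension of `Q`. -/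
def IsFacet {E : Type*} [NormedAddCommGroup E] [NormedSpace ℝ E] (Q F : Set E) : Prop :=
  F.Nonempty ∧ IsExposed ℝ Q F ∧
    finrank ℝ (vectorSpan ℝ F) + 1 = finrank ℝ (vectorSpan ℝ Q)

/-- The number of facets. -/
noncomputable def nFacets {E : Type*} [NormedAddCommGroup E] [NormedSpace ℝ E] (Q : Set E) : ℕ :=
  {F : Set E | IsFacet Q F}.ncard

/-- `P` is the image, under a linear map, of a polytope with exactly `r` facets. -/
def HasLift {V : Type*} [AddCommGroup V] [Module ℝ V] (P : Set V) (r : ℕ) : Prop :=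
  ∃ (k : ℕ) (Q : Set (Fin k → ℝ)) (f : (Fin k → ℝ) →ₗ[ℝ] V),
    IsPolytope Q ∧ nFacets Q = r ∧ f '' Q = P

/-- The extension complexity: the least number of facets of a polytope that is mapped onto `P` by
some linear map. -/
noncomputable def xc {V : Type*} [AddCommGroup V] [Module ℝ V] (P : Set V) : ℕ :=
  sInf {r : ℕ | HasLift P r}

/-- `L` is a `d`-dimensional lattice in `ℝ^n`: the image of `ℤ^d` under an injective linear map. -/
def IsLattice (d : ℕ) {n : ℕ} (L : Set (EuclideanSpace ℝ (Fin n))) : Prop :=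
  ∃ B : (Fin d → ℝ) →ₗ[ℝ] EuclideanSpace ℝ (Fin n), Function.Injective B ∧
    L = {x | ∃ m : Fin d → ℤ, x = B (fun i => (m i : ℝ))}

/-- The Voronoi cell of `L` inside its linear hull. -/
def VC {n : ℕ} (L : Set (EuclideanSpace ℝ (Fin n))) : Set (EuclideanSpace ℝ (Fin n)) :=
  {x | x ∈ Submodule.span ℝ L ∧ ∀ z ∈ L, ‖x‖ ≤ ‖x - z‖}

/-- The dual lattice. -/
def dual {n : ℕ} (L : Set (EuclideanSpace ℝ (Fin n))) : Set (EuclideanSpace ℝ (Fin n)) :=
  {y | y ∈ Submodule.span ℝ L ∧ ∀ z ∈ L, ∃ m : ℤ, inner ℝ y z = (m : ℝ)}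

end Q54.LatXC
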