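import Pool.Agent.Q54.LatXC.Defs

/-!
Facets of a polyhedron given by finitely many inequalities.
-/

namespace Q54.LatXC

open Module

section

variable {E : Type*} [NormedAddCommGroup E] [NormedSpace ℝ E] [FiniteDimensional ℝ E]
variable {ι : Type*}

/-- the polyhedron with equations indexed by `J` and inequalities indexed by `S` -/
def PolyJS (A : ι → E →ₗ[ℝ] ℝ) (b : ι → ℝ) (J S : Finset ι) : Set E :=
  {x | (∀ j ∈ J, A j x = b j) ∧ ∀ i ∈ S, A i x ≤ b i}

/-- directions killed by all functionals in `J` -/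
def dirs (A : ι → E →ₗ[ℝ] ℝ) (J : Finset ι) : Submodule ℝ E where
  carrier := {v | ∀ j ∈ J, A j v = 0}
  add_mem' := by
    intro a b ha hb j hj
    simp [ha j hj, hb j hj]
  zero_mem' := by intro j _; simp
  smul_mem' := by
    intro c x hx j hj
    simp [hx j hj]

theorem mem_dirs {A : ι → E →ₗ[ℝ] ℝ} {J : Finset ι} {v : E} :
    v ∈ dirs A J ↔ ∀ j ∈ J, A j v = 0 := Iff.rfl

theorem relint (A : ι → E →ₗ[ℝ] ℝ) (b : ι → ℝ) (C : Set E) (hC : Convex ℝ C)
    (hne : C.Nonempty) (T : Finset ι) (hT : ∀ i ∈ T, ∃ x ∈ C, A i x < b i)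
    (hle : ∀ x ∈ C, ∀ i ∈ T, A i x ≤ b i) : ∃ y ∈ C, ∀ i ∈ T, A i y < b i := by
  classical
  induction T using Finset.induction_on with
  | empty =>
    obtain ⟨y, hy⟩ := hne
    exact ⟨y, hy, by simp⟩
  | insert i T hi ih =>
    obtain ⟨y, hyC, hy⟩ := ih (fun j hj => hT j (Finset.mem_insert_of_mem hj))
      (fun x hx j hj => hle x hx j (Finset.mem_insert_of_mem hj))
    obtain ⟨x, hxC, hx⟩ := hT i (Finset.mem_insert_self _ _)
    refine ⟨(1/2 : ℝ) • y + (1/2 : ℝ) • x, hC hyC hxC (by norm_num) (by norm_num) (by norm_num), ?_⟩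
    intro j hj
    have e : A j ((1/2 : ℝ) • y + (1/2 : ℝ) • x) = (1/2) * A j y + (1/2) * A j x := by
      simp
    rw [e]
    rcases Finset.mem_insert.mp hj with rfl | hjT
    · have := hle y hyC j hj
      linarith
    · have h1 := hy j hjT
      have h2 := hle x hxC j hj
      linarith

theorem push (A : ι → E →ₗ[ℝ] ℝ) (b : ι → ℝ) (T : Finset ι) (x v : E)
    (hx : ∀ i ∈ T, A i x < b i) :
    ∃ s : ℝ, 0 < s ∧ ∀ i ∈ T, A i (x + s • v) ≤ b i := by
  classical
  have h : ∀ᶠ s in nhdsWithin (0 : ℝ) (Set.Ioi 0), ∀ i ∈ T, A i (x + s • v) ≤ b i := by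
    rw [Filter.eventually_all_finset]
    intro i hi
    have hc : Continuous (fun s : ℝ => A i x + s * A i v) := by fun_prop
    have h0 : Filter.Tendsto (fun s : ℝ => A i x + s * A i v) (nhdsWithin (0 : ℝ) (Set.Ioi 0))
        (nhds (A i x + 0 * A i v)) := (hc.tendsto 0).mono_left nhdsWithin_le_nhds
    have h1 : A i x + 0 * A i v < b i := by simpa using hx i hi
    filter_upwards [h0.eventually_lt_const h1] with s hs
    have e : A i (x + s • v) = A i x + s * A i v := by simp
    rw [e]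
    exact hs.le
  have h2 : ∀ᶠ s in nhdsWithin (0 : ℝ) (Set.Ioi 0), (0 : ℝ) < s := self_mem_nhdsWithin
  obtain ⟨s, hs1, hs2⟩ := (h.and h2).exists
  exact ⟨s, hs2, hs1⟩

theorem convex_PolyJS (A : ι → E →ₗ[ℝ] ℝ) (b : ι → ℝ) (J S : Finset ι) :
    Convex ℝ (PolyJS A b J S) := by
  intro x hx y hy s t hs ht hst
  refine ⟨?_, ?_⟩
  · intro j hj
    have e : A j (s • x + t • y) = s * A j x + t * A j y := by simp
    rw [e, hx.1 j hj, hy.1 j hj]
    rw [← add_mul, hst, one_mul]
  · intro j hj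
    have e : A j (s • x + t • y) = s * A j x + t * A j y := by simp
    rw [e]
    have h1 := mul_le_mul_of_nonneg_left (hx.2 j hj) hs
    have h2 := mul_le_mul_of_nonneg_left (hy.2 j hj) ht
    have h3 : s * b j + t * b j = b j := by rw [← add_mul, hst, one_mul]
    linarith

theorem vectorSpan_PolyJS (A : ι → E →ₗ[ℝ] ℝ) (b : ι → ℝ) (J S : Finset ι) (y : E)
    (hy : y ∈ PolyJS A b J S) (hs : ∀ i ∈ S, A i y < b i) :
    vectorSpan ℝ (PolyJS A b J S) = dirs A J := by
  apply le_antisymm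
  · rw [vectorSpan_def, Submodule.span_le]
    rintro v ⟨p, hp, q, hq, rfl⟩
    intro j hj
    simp [hp.1 j hj, hq.1 j hj]
  · intro v hv
    obtain ⟨s, hs0, hs1⟩ := push A b S y v hs
    have hmem : y + s • v ∈ PolyJS A b J S := by
      refine ⟨?_, hs1⟩
      intro j hj
      have : A j v = 0 := hv j hj
      simp [hy.1 j hj, this]
    have h1 : s • v ∈ vectorSpan ℝ (PolyJS A b J S) := by
      have := vsub_mem_vectorSpan ℝ hmem hy
      simpa using this
    have h2 : s⁻¹ • (s • v) ∈ vectorSpan ℝ (PolyJS A b J S) := Submodule.smul_mem _ _ h1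
    rwa [smul_smul, inv_mul_cancel₀ hs0.ne', one_smul] at h2

theorem finrank_dirs_insert [DecidableEq ι] (A : ι → E →ₗ[ℝ] ℝ) (J : Finset ι) (i : ι) (v : E)
    (hv : v ∈ dirs A J) (hi : A i v ≠ 0) :
    finrank ℝ (dirs A (insert i J)) + 1 = finrank ℝ (dirs A J) := by
  have hne : (A i).domRestrict (dirs A J) ≠ 0 := by
    intro h
    apply hi
    have := LinearMap.congr_fun h ⟨v, hv⟩
    simpa using this
  have h1 := Module.Dual.finrank_ker_add_one_of_ne_zero (f := (A i).domRestrict (dirs A J)) hne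
  have h2 : (LinearMap.ker ((A i).domRestrict (dirs A J))).map (dirs A J).subtype
      = dirs A (insert i J) := by
    ext w
    constructor
    · rintro ⟨⟨u, hu⟩, hu2, rfl⟩
      intro j hj
      rcases Finset.mem_insert.mp hj with rfl | hj
      · simpa using hu2
      · simpa using hu j hj
    · intro hw
      refine ⟨⟨w, fun j hj => hw j (Finset.mem_insert_of_mem hj)⟩, ?_, rfl⟩
      simpa using hw i (Finset.mem_insert_self _ _)
  rw [← h2, Submodule.finrank_map_subtype_eq]
  exact h1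

/-- The face of `Q` cut out by the `i`-th inequality. -/
def tightFace (A : ι → E →ₗ[ℝ] ℝ) (b : ι → ℝ) (Q : Set E) (i : ι) : Set E := {x | x ∈ Q ∧ A i x = b i}

theorem isFacet_of_tight [DecidableEq ι] (A : ι → E →ₗ[ℝ] ℝ) (b : ι → ℝ) (J S : Finset ι) (y p : E)
    (hy : y ∈ PolyJS A b J S) (hs : ∀ i ∈ S, A i y < b i) (i : ι) (hi : i ∈ S)
    (hp : p ∈ PolyJS A b J S) (hpi : A i p = b i) (hps : ∀ j ∈ S, j ≠ i → A j p < b j) :
    IsFacet (PolyJS A b J S) (tightFace A b (PolyJS A b J S) i) := by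
  refine ⟨⟨p, hp, hpi⟩, ?_, ?_⟩
  · intro _
    refine ⟨LinearMap.toContinuousLinearMap (A i), ?_⟩
    ext x
    constructor
    · rintro ⟨hx, hxi⟩
      refine ⟨hx, fun z hz => ?_⟩
      simp only [LinearMap.coe_toContinuousLinearMap']
      rw [hxi]
      exact hz.2 i hi
    · rintro ⟨hx, hmax⟩
      refine ⟨hx, ?_⟩
      have h1 := hmax p hp
      simp only [LinearMap.coe_toContinuousLinearMap'] at h1
      rw [hpi] at h1
      exact le_antisymm (hx.2 i hi) h1
  · have e1 : tightFace A b (PolyJS A b J S) i = PolyJS A b (insert i J) (S.erase i) := by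
      ext x
      constructor
      · rintro ⟨hx, hxi⟩
        refine ⟨?_, fun j hj => hx.2 j (Finset.mem_of_mem_erase hj)⟩
        intro j hj
        rcases Finset.mem_insert.mp hj with rfl | hj
        · exact hxi
        · exact hx.1 j hj
      · rintro ⟨hx1, hx2⟩
        have hxi := hx1 i (Finset.mem_insert_self _ _)
        refine ⟨⟨fun j hj => hx1 j (Finset.mem_insert_of_mem hj), ?_⟩, hxi⟩
        intro j hj
        by_cases hji : j = i
        · subst hji; exact hxi.le
        · exact hx2 j (Finset.mem_erase.mpr ⟨hji, hj⟩)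
    rw [e1]
    rw [vectorSpan_PolyJS A b (insert i J) (S.erase i) p ?_ ?_, vectorSpan_PolyJS A b J S y hy hs]
    · apply finrank_dirs_insert A J i (p - y)
      · intro j hj
        simp [hp.1 j hj, hy.1 j hj]
      · have := hs i hi
        rw [map_sub, hpi]
        linarith
    · rw [← e1]; exact ⟨hp, hpi⟩
    · intro j hj
      exact hps j (Finset.mem_of_mem_erase hj) (Finset.ne_of_mem_erase hj)

/-- Irredundant description. -/
theorem exists_irred [Fintype ι] [DecidableEq ι] (A : ι → E →ₗ[ℝ] ℝ) (b : ι → ℝ) (Q : Set E)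
    (hQ : Q = {x | ∀ i, A i x ≤ b i}) (hne : Q.Nonempty) :
    ∃ (J S : Finset ι) (y : E), Q = PolyJS A b J S ∧ y ∈ Q ∧ (∀ i ∈ S, A i y < b i) ∧
      ∀ i ∈ S, ∃ p ∈ Q, A i p = b i ∧ ∀ j ∈ S, j ≠ i → A j p < b j := by
  classical
  set J : Finset ι := Finset.univ.filter (fun i => ∀ x ∈ Q, A i x = b i) with hJ
  have hJmem : ∀ i, i ∈ J ↔ ∀ x ∈ Q, A i x = b i := by intro i; simp [hJ]
  have hQc : Convex ℝ Q := by
    have : Q = PolyJS A b ∅ Finset.univ := by
      rw [hQ]; ext x; simp [PolyJS]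
    rw [this]; exact convex_PolyJS A b _ _
  -- relative interior point
  obtain ⟨y, hyQ, hy⟩ := relint A b Q hQc hne (Finset.univ.filter (fun i => i ∉ J)) (by
    intro i hi
    have hi' : i ∉ J := (Finset.mem_filter.mp hi).2
    rw [hJmem] at hi'
    push Not at hi'
    obtain ⟨x, hx, hxi⟩ := hi'
    refine ⟨x, hx, lt_of_le_of_ne ?_ hxi⟩
    rw [hQ] at hx
    exact hx i) (by
    intro x hx i _
    rw [hQ] at hx
    exact hx i)
  have hy' : ∀ i, i ∉ J → A i y < b i := fun i hi => hy i (by simp [hi])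
  -- minimal S
  have hex : ∃ n : ℕ, ∃ S : Finset ι, S.card = n ∧ (∀ i ∈ S, i ∉ J) ∧ Q = PolyJS A b J S := by
    refine ⟨_, Finset.univ.filter (fun i => i ∉ J), rfl, by simp, ?_⟩
    ext x
    constructor
    · intro hx
      refine ⟨fun j hj => (hJmem j).mp hj x hx, fun i _ => ?_⟩
      rw [hQ] at hx
      exact hx i
    · rintro ⟨h1, h2⟩
      rw [hQ]
      intro i
      by_cases hi : i ∈ J
      · exact (h1 i hi).le
      · exact h2 i (by simp [hi])
  obtain ⟨S, hScard, hSJ, hSQ⟩ := Nat.find_spec hex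
  refine ⟨J, S, y, hSQ, hyQ, fun i hi => hy' i (hSJ i hi), ?_⟩
  intro i hi
  -- S.erase i does not describe Q
  have hnot : Q ≠ PolyJS A b J (S.erase i) := by
    intro h
    have hlt : (S.erase i).card < Nat.find hex := by
      rw [← hScard]; exact Finset.card_erase_lt_of_mem hi
    exact Nat.find_min hex hlt ⟨S.erase i, rfl, fun j hj => hSJ j (Finset.mem_of_mem_erase hj), h⟩
  have hsub : Q ⊆ PolyJS A b J (S.erase i) := by
    intro x hx
    rw [hSQ] at hx
    exact ⟨hx.1, fun j hj => hx.2 j (Finset.mem_of_mem_erase hj)⟩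
  obtain ⟨x, hx, hxQ⟩ : ∃ x ∈ PolyJS A b J (S.erase i), x ∉ Q := by
    by_contra hcon
    push Not at hcon
    exact hnot (Set.Subset.antisymm hsub hcon)
  have hxi : b i < A i x := by
    by_contra hle
    push Not at hle
    apply hxQ
    rw [hSQ]
    refine ⟨hx.1, fun j hj => ?_⟩
    by_cases hji : j = i
    · subst hji; exact hle
    · exact hx.2 j (Finset.mem_erase.mpr ⟨hji, hj⟩)
  have hyi : A i y < b i := hy' i (hSJ i hi)
  set t : ℝ := (b i - A i y) / (A i x - A i y) with ht
  have hden : 0 < A i x - A i y := by linarith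
  have ht0 : 0 < t := div_pos (by linarith) hden
  have ht1 : t < 1 := by rw [ht, div_lt_one hden]; linarith
  have hpi : A i (y + t • (x - y)) = b i := by
    have : A i (y + t • (x - y)) = A i y + t * (A i x - A i y) := by simp
    rw [this, ht]
    field_simp
    ring
  have hpj : ∀ j ∈ S, j ≠ i → A j (y + t • (x - y)) < b j := by
    intro j hj hji
    have e : A j (y + t • (x - y)) = (1 - t) * A j y + t * A j x := by simp; ring
    rw [e]
    have h1 := hy' j (hSJ j hj)
    have h2 := hx.2 j (Finset.mem_erase.mpr ⟨hji, hj⟩)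
    have h3 : (1 - t) * A j y < (1 - t) * b j := mul_lt_mul_of_pos_left h1 (by linarith)
    have h4 : t * A j x ≤ t * b j := mul_le_mul_of_nonneg_left h2 ht0.le
    linarith
  refine ⟨y + t • (x - y), ?_, hpi, hpj⟩
  rw [hSQ]
  refine ⟨?_, ?_⟩
  · intro j hj
    have e : A j (y + t • (x - y)) = (1 - t) * A j y + t * A j x := by simp; ring
    have h1 : A j y = b j := (hJmem j).mp hj y hyQ
    rw [e, h1, hx.1 j hj]
    ring
  · intro j hj
    by_cases hji : j = i
    · subst hji; exact hpi.le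
    · exact (hpj j hj hji).le

/-- Every face of a polyhedron and every point outside it are separated by a facet. -/
theorem exists_facet [Fintype ι] (A : ι → E →ₗ[ℝ] ℝ) (b : ι → ℝ) (Q : Set E)
    (hQ : Q = {x | ∀ i, A i x ≤ b i}) (g : E →ₗ[ℝ] ℝ) (β : ℝ) (hg : ∀ x ∈ Q, g x ≤ β)
    (hF : ∃ x ∈ Q, g x = β) (z : E) (hz : z ∈ Q) (hzβ : g z < β) :
    ∃ G : Set E, IsFacet Q G ∧ (∀ x ∈ Q, g x = β → x ∈ G) ∧ z ∉ G := by
  classical
  obtain ⟨J, S, y, hQJS, hyQ, hy, hirr⟩ := exists_irred A b Q hQ ⟨z, hz⟩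
  set F : Set E := {x | x ∈ Q ∧ g x = β} with hFdef
  by_contra hcon
  push Not at hcon
  -- every i in S tight on F is tight at z
  have key : ∀ i ∈ S, (∀ x ∈ F, A i x = b i) → A i z = b i := by
    intro i hi hFi
    obtain ⟨p, hpQ, hpi, hps⟩ := hirr i hi
    have hfac : IsFacet Q (tightFace A b Q i) := by
      rw [hQJS] at hyQ hpQ ⊢
      exact isFacet_of_tight A b J S y p hyQ hy i hi hpQ hpi hps
    have := hcon _ hfac (fun x hx hgx => ⟨hx, hFi x ⟨hx, hgx⟩⟩)
    exact this.2
  have hQc : Convex ℝ Q := by rw [hQJS]; exact convex_PolyJS A b _ _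
  have hFc : Convex ℝ F := by
    intro x hx w hw s t hs ht hst
    refine ⟨hQc hx.1 hw.1 hs ht hst, ?_⟩
    have e : g (s • x + t • w) = s * g x + t * g w := by simp
    rw [e, hx.2, hw.2, ← add_mul, hst, one_mul]
  obtain ⟨x0, hx0Q, hx0⟩ := hF
  obtain ⟨u, huF, hu⟩ := relint A b F hFc ⟨x0, hx0Q, hx0⟩
    (S.filter (fun i => ¬ ∀ x ∈ F, A i x = b i)) (by
      intro i hi
      obtain ⟨hiS, hi'⟩ := Finset.mem_filter.mp hi
      push Not at hi'
      obtain ⟨x, hx, hxi⟩ := hi'
      refine ⟨x, hx, lt_of_le_of_ne ?_ hxi⟩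
      have := hx.1
      rw [hQJS] at this
      exact this.2 i hiS) (by
      intro x hx i hi
      have := hx.1
      rw [hQJS] at this
      exact this.2 i (Finset.mem_filter.mp hi).1)
  obtain ⟨s, hs0, hs⟩ := push A b (S.filter (fun i => ¬ ∀ x ∈ F, A i x = b i)) u (u - z) hu
  have huQ : u ∈ Q := huF.1
  have hzJ : z ∈ PolyJS A b J S := by rw [← hQJS]; exact hz
  have huJ : u ∈ PolyJS A b J S := by rw [← hQJS]; exact huQ
  have hmem : u + s • (u - z) ∈ Q := by
    rw [hQJS]
    refine ⟨?_, ?_⟩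
    · intro j hj
      simp [hzJ.1 j hj, huJ.1 j hj]
    · intro i hi
      by_cases hti : ∀ x ∈ F, A i x = b i
      · have h1 := key i hi hti
        have h2 := hti u huF
        simp [h1, h2]
      · exact hs i (Finset.mem_filter.mpr ⟨hi, hti⟩)
  have h1 := hg _ hmem
  have h2 : g (u + s • (u - z)) = g u + s * (g u - g z) := by simp
  rw [h2, huF.2] at h1
  have : 0 < s * (β - g z) := mul_pos hs0 (by linarith)
  linarith

/-- Every facet is cut out by one of the inequalities. -/
theorem facet_eq_tight [Fintype ι] (A : ι → E →ₗ[ℝ] ℝ) (b : ι → ℝ) (Q : Set E)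
    (hQ : Q = {x | ∀ i, A i x ≤ b i}) (F : Set E) (hF : IsFacet Q F) :
    ∃ i, F = tightFace A b Q i := by
  classical
  obtain ⟨hFne, hexp, hdim⟩ := hF
  obtain ⟨l, hl⟩ := hexp hFne
  have hFQ : ∀ x ∈ F, x ∈ Q := by intro x hx; rw [hl] at hx; exact hx.1
  have hle : ∀ x ∈ Q, ∀ i, A i x ≤ b i := by intro x hx i; rw [hQ] at hx; exact hx i
  set J : Finset ι := Finset.univ.filter (fun i => ∀ x ∈ Q, A i x = b i) with hJ
  set T : Finset ι := Finset.univ.filter (fun i => ∀ x ∈ F, A i x = b i) with hT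
  have hJmem : ∀ i, i ∈ J ↔ ∀ x ∈ Q, A i x = b i := by intro i; simp [hJ]
  have hTmem : ∀ i, i ∈ T ↔ ∀ x ∈ F, A i x = b i := by intro i; simp [hT]
  have hJT : J ⊆ T := by
    intro i hi
    rw [hTmem]
    intro x hx
    exact (hJmem i).mp hi x (hFQ x hx)
  have hQc : Convex ℝ Q := by
    have : Q = PolyJS A b ∅ Finset.univ := by
      rw [hQ]; ext x; simp [PolyJS]
    rw [this]; exact convex_PolyJS A b _ _
  have hFc : Convex ℝ F := by
    rw [hl]
    intro x hx w hw s t hs ht hst
    refine ⟨hQc hx.1 hw.1 hs ht hst, ?_⟩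
    intro z hz
    have e : l (s • x + t • w) = s * l x + t * l w := by simp
    rw [e]
    have h1 := mul_le_mul_of_nonneg_left (hx.2 z hz) hs
    have h2 := mul_le_mul_of_nonneg_left (hw.2 z hz) ht
    have h3 : s * l z + t * l z = l z := by rw [← add_mul, hst, one_mul]
    linarith
  obtain ⟨y, hyF, hy⟩ := relint A b F hFc hFne (Finset.univ.filter (fun i => i ∉ T)) (by
    intro i hi
    have hi' : i ∉ T := (Finset.mem_filter.mp hi).2
    rw [hTmem] at hi'
    push Not at hi'
    obtain ⟨x, hx, hxi⟩ := hi'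
    exact ⟨x, hx, lt_of_le_of_ne (hle x (hFQ x hx) i) hxi⟩) (fun x hx i _ => hle x (hFQ x hx) i)
  have hy' : ∀ i, i ∉ T → A i y < b i := fun i hi => hy i (by simp [hi])
  have hyQ := hFQ y hyF
  obtain ⟨w, hwQ, hw⟩ := relint A b Q hQc ⟨y, hyQ⟩ (Finset.univ.filter (fun i => i ∉ J)) (by
    intro i hi
    have hi' : i ∉ J := (Finset.mem_filter.mp hi).2
    rw [hJmem] at hi'
    push Not at hi'
    obtain ⟨x, hx, hxi⟩ := hi'
    exact ⟨x, hx, lt_of_le_of_ne (hle x hx i) hxi⟩) (fun x hx i _ => hle x hx i)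
  have hw' : ∀ i, i ∉ J → A i w < b i := fun i hi => hw i (by simp [hi])
  -- descriptions
  have hQJ : Q = PolyJS A b J (Finset.univ.filter (fun i => i ∉ J)) := by
    ext x
    constructor
    · intro hx
      exact ⟨fun j hj => (hJmem j).mp hj x hx, fun i _ => hle x hx i⟩
    · rintro ⟨h1, h2⟩
      rw [hQ]
      intro i
      by_cases hi : i ∈ J
      · exact (h1 i hi).le
      · exact h2 i (by simp [hi])
  have hFT : F = PolyJS A b T (Finset.univ.filter (fun i => i ∉ T)) := by
    ext x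
    constructor
    · intro hx
      exact ⟨fun j hj => (hTmem j).mp hj x hx, fun i _ => hle x (hFQ x hx) i⟩
    · rintro ⟨h1, h2⟩
      have hxQ : x ∈ Q := by
        rw [hQ]
        intro i
        by_cases hi : i ∈ T
        · exact (h1 i hi).le
        · exact h2 i (by simp [hi])
      obtain ⟨s, hs0, hs⟩ := push A b (Finset.univ.filter (fun i => i ∉ T)) y (y - x) hy
      have hmem : y + s • (y - x) ∈ Q := by
        rw [hQ]
        intro i
        by_cases hi : i ∈ T
        · have e1 : A i y = b i := (hTmem i).mp hi y hyF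
          simp [e1, h1 i hi]
        · exact hs i (by simp [hi])
      have hmax : ∀ z ∈ Q, l z ≤ l y := by
        have := hyF
        rw [hl] at this
        exact this.2
      have h3 := hmax _ hmem
      have h4 : l (y + s • (y - x)) = l y + s * (l y - l x) := by simp
      rw [h4] at h3
      have h5 : l y ≤ l x := by
        by_contra hcon
        push Not at hcon
        have : 0 < s * (l y - l x) := mul_pos hs0 (by linarith)
        linarith
      rw [hl]
      exact ⟨hxQ, fun z hz => (hmax z hz).trans h5⟩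
  have hsQ : vectorSpan ℝ Q = dirs A J := by
    rw [hQJ]
    apply vectorSpan_PolyJS A b J _ w
    · rw [← hQJ]; exact hwQ
    · exact hw
  have hsF : vectorSpan ℝ F = dirs A T := by
    rw [hFT]
    apply vectorSpan_PolyJS A b T _ y
    · rw [← hFT]; exact hyF
    · exact hy
  rw [hsQ, hsF] at hdim
  -- an index in T that is not zero on dirs J
  obtain ⟨i, hiT, v, hv, hvi⟩ : ∃ i ∈ T, ∃ v ∈ dirs A J, A i v ≠ 0 := by
    by_contra hcon
    push Not at hcon
    have h1 : dirs A J ≤ dirs A T := fun v hv i hi => hcon i hi v hv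
    have := Submodule.finrank_mono h1
    omega
  have hins := finrank_dirs_insert A J i v hv hvi
  have hle2 : dirs A T ≤ dirs A (insert i J) := by
    intro u hu j hj
    rcases Finset.mem_insert.mp hj with rfl | hj
    · exact hu j hiT
    · exact hu j (hJT hj)
  have heq : dirs A T = dirs A (insert i J) := by
    apply Submodule.eq_of_le_of_finrank_eq hle2
    omega
  refine ⟨i, ?_⟩
  ext x
  constructor
  · intro hx
    exact ⟨hFQ x hx, (hTmem i).mp hiT x hx⟩
  · rintro ⟨hxQ, hxi⟩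
    have hd : x - y ∈ dirs A T := by
      rw [heq]
      intro j hj
      rcases Finset.mem_insert.mp hj with rfl | hj
      · rw [map_sub, hxi, (hTmem j).mp hiT y hyF, sub_self]
      · rw [map_sub, (hJmem j).mp hj x hxQ, (hJmem j).mp hj y hyQ, sub_self]
    rw [hFT]
    refine ⟨?_, fun j _ => hle x hxQ j⟩
    intro j hj
    have h1 := hd j hj
    rw [map_sub, (hTmem j).mp hj y hyF] at h1
    linarith

theorem facets_finite [Fintype ι] (A : ι → E →ₗ[ℝ] ℝ) (b : ι → ℝ) (Q : Set E)
    (hQ : Q = {x | ∀ i, A i x ≤ b i}) : {F : Set E | IsFacet Q F}.Finite := by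
  apply (Set.finite_range (tightFace A b Q)).subset
  intro F hF
  obtain ⟨i, hi⟩ := facet_eq_tight A b Q hQ F hF
  exact ⟨i, hi.symm⟩

theorem nFacets_le [Fintype ι] (A : ι → E →ₗ[ℝ] ℝ) (b : ι → ℝ) (Q : Set E)
    (hQ : Q = {x | ∀ i, A i x ≤ b i}) : nFacets Q ≤ Fintype.card ι := by
  classical
  have h1 : {F : Set E | IsFacet Q F} ⊆ Set.range (tightFace A b Q) := by
    intro F hF
    obtain ⟨i, hi⟩ := facet_eq_tight A b Q hQ F hF
    exact ⟨i, hi.symm⟩
  have h2 := Set.ncard_le_ncard h1 (Set.finite_range _)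
  refine h2.trans ?_
  have h3 : Set.range (tightFace A b Q) = ((Finset.univ.image (tightFace A b Q) : Finset (Set E)) : Set (Set E)) := by
    simp
  rw [h3, Set.ncard_coe_finset]
  exact Finset.card_image_le.trans (by simp)

end

end Q54.LatXC
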