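import Mathlib

/-!
The Gram matrix whose Voronoi cell encodes the correlation polytope.
-/

namespace Q54.LatXC

open Finset

/-- index set of the variables: `x_i` and `u_{jk}` -/
abbrev WW (N : ℕ) : Type := Fin N ⊕ (Fin N × Fin N)

/-- the full index set: the special index, the variables and their complements -/
abbrev II (N : ℕ) : Type := Option (WW N ⊕ WW N)

/-- couplings between the variables -/
def GG (N : ℕ) : WW N ⊕ WW N → WW N ⊕ WW N → ℝ
  | Sum.inl (Sum.inl _), Sum.inl (Sum.inl _) => 1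
  | Sum.inl (Sum.inl i), Sum.inl (Sum.inr p) => (if i = p.1 then 1 else 0) + (if i = p.2 then 1 else 0)
  | Sum.inl (Sum.inr p), Sum.inl (Sum.inl i) => (if i = p.1 then 1 else 0) + (if i = p.2 then 1 else 0)
  | _, _ => 0

def kK (N : ℕ) : ℝ := (N : ℝ) + (N : ℝ)^2
def kL (N : ℕ) : ℝ := 2 * (N : ℝ)
def kα (N : ℕ) : ℝ := 2 * kK N + 4 * kL N * N + 3 * kL N + 2
def kC (N : ℕ) : ℝ := kα N + ((kK N)^2 + 3 * kL N * (N : ℝ)^2 + 1 + (N : ℝ)^2) + (4 * kL N + 4)

/-- the perturbation -/
def HH (N : ℕ) : II N → II N → ℝ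
  | none, none => 0
  | none, some _ => kα N
  | some _, none => kα N
  | some v, some w => 2 + 2 * kL N * GG N v w

theorem GG_symm (N : ℕ) (v w : WW N ⊕ WW N) : GG N v w = GG N w v := by
  rcases v with (i | p) | v <;> rcases w with (j | q) | w <;> simp [GG]

theorem GG_nonneg (N : ℕ) (v w : WW N ⊕ WW N) : 0 ≤ GG N v w := by
  rcases v with (i | p) | v <;> rcases w with (j | q) | w <;> simp only [GG] <;> positivity

theorem GG_le (N : ℕ) (v w : WW N ⊕ WW N) : GG N v w ≤ 2 := by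
  have key : ∀ (s t : Prop) [Decidable s] [Decidable t],
      ((if s then (1:ℝ) else 0) + (if t then 1 else 0)) ≤ 2 := by
    intro s t _ _
    split_ifs <;> norm_num
  rcases v with (i | p) | v <;> rcases w with (j | q) | w <;> simp only [GG] <;>
    first | exact key _ _ | norm_num

theorem kL_nonneg (N : ℕ) : 0 ≤ kL N := by unfold kL; positivity
theorem kK_nonneg (N : ℕ) : 0 ≤ kK N := by unfold kK; positivity
theorem kα_ge (N : ℕ) : 2 ≤ kα N := by
  unfold kα
  have h1 := kK_nonneg N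
  have h2 := kL_nonneg N
  have : 0 ≤ kL N * (N : ℝ) := by positivity
  nlinarith

theorem HH_symm (N : ℕ) (v w : II N) : HH N v w = HH N w v := by
  rcases v with _ | v <;> rcases w with _ | w <;> simp only [HH]
  rw [GG_symm N v w]

theorem HH_nonneg (N : ℕ) (v w : II N) : 0 ≤ HH N v w := by
  have h1 := kα_ge N
  have h2 := kL_nonneg N
  rcases v with _ | v <;> rcases w with _ | w <;> simp only [HH]
  · exact le_refl _
  · linarith
  · linarith
  · have := GG_nonneg N v w
    positivity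

theorem HH_low (N : ℕ) (v w : II N) (h : v ≠ w) : 2 ≤ HH N v w := by
  have h1 := kα_ge N
  have h2 := kL_nonneg N
  rcases v with _ | v <;> rcases w with _ | w <;> simp only [HH]
  · exact absurd rfl h
  · linarith
  · linarith
  · have := GG_nonneg N v w
    have : 0 ≤ 2 * kL N * GG N v w := by positivity
    linarith

theorem HH_le (N : ℕ) (v w : II N) : HH N v w ≤ kC N := by
  have h1 := kα_ge N
  have h2 := kL_nonneg N
  have h3 := kK_nonneg N
  have h4 : 0 ≤ (kK N)^2 + 3 * kL N * (N : ℝ)^2 + 1 + (N : ℝ)^2 := by positivity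
  unfold kC
  rcases v with _ | v <;> rcases w with _ | w <;> simp only [HH]
  · linarith
  · linarith
  · linarith
  · have := GG_le N v w
    have : 2 * kL N * GG N v w ≤ 2 * kL N * 2 := mul_le_mul_of_nonneg_left this (by positivity)
    linarith

theorem kC_ge (N : ℕ) : 4 ≤ kC N := by
  unfold kC
  have h1 := kα_ge N
  have h2 := kL_nonneg N
  have h4 : 0 ≤ (kK N)^2 + 3 * kL N * (N : ℝ)^2 + 1 + (N : ℝ)^2 := by positivity
  linarith

/-- the constant term -/
noncomputable def s0 (N : ℕ) (a : Finset (Fin N)) : ℝ :=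
  (kK N)^2 + 3 * kL N * (N : ℝ)^2 + 1 + (a.card : ℝ)^2

/-- the linear coefficients -/
noncomputable def σσ (N : ℕ) (a : Finset (Fin N)) : WW N ⊕ WW N → ℝ
  | Sum.inl (Sum.inl i) => kα N - 2 * kK N - 4 * kL N * N - (if i ∈ a then 2 else 0)
  | Sum.inl (Sum.inr p) => kα N - 2 * kK N - 3 * kL N - (if p.1 ∈ a ∧ p.2 ∈ a then 1 else 0)
  | Sum.inr _ => kα N - 2 * kK N

theorem s0_nonneg (N : ℕ) (a : Finset (Fin N)) : 0 ≤ s0 N a := by
  unfold s0
  have := kL_nonneg N
  positivity

theorem s0_le (N : ℕ) (a : Finset (Fin N)) : s0 N a ≤ kC N := by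
  have h1 := kα_ge N
  have h2 := kL_nonneg N
  have h5 : (a.card : ℝ) ≤ N := by
    have := Finset.card_le_univ a
    simp only [Fintype.card_fin] at this
    exact_mod_cast this
  have h6 : (a.card : ℝ)^2 ≤ (N : ℝ)^2 := by gcongr
  unfold s0 kC
  linarith

theorem σσ_nonneg (N : ℕ) (a : Finset (Fin N)) (v : WW N ⊕ WW N) : 0 ≤ σσ N a v := by
  have h2 := kL_nonneg N
  have h3 : 0 ≤ kL N * (N : ℝ) := by positivity
  rcases v with (i | p) | v <;> simp only [σσ, kα]
  · split_ifs <;> nlinarith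
  · split_ifs <;> nlinarith
  · nlinarith

theorem σσ_le (N : ℕ) (a : Finset (Fin N)) (v : WW N ⊕ WW N) : σσ N a v ≤ kC N := by
  have h1 := kα_ge N
  have h2 := kL_nonneg N
  have h3 : 0 ≤ kL N * (N : ℝ) := by positivity
  have h4 : 0 ≤ (kK N)^2 + 3 * kL N * (N : ℝ)^2 + 1 + (N : ℝ)^2 := by positivity
  have h5 := kK_nonneg N
  have h6 : σσ N a v ≤ kα N := by
    rcases v with (i | p) | v <;> simp only [σσ]
    · split_ifs <;> nlinarith
    · split_ifs <;> nlinarith
    · nlinarith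
  unfold kC
  linarith

/-- the quadratic form of the perturbation -/
theorem HH_quad (N : ℕ) (z : II N → ℝ) :
    ∑ i, ∑ j, z i * HH N i j * z j =
      2 * kα N * z none * (∑ v, z (some v)) + 2 * (∑ v, z (some v))^2 +
      2 * kL N * ((∑ i, z (some (Sum.inl (Sum.inl i))))^2
        + 2 * ∑ p : Fin N × Fin N, (z (some (Sum.inl (Sum.inl p.1))) + z (some (Sum.inl (Sum.inl p.2))))
            * z (some (Sum.inl (Sum.inr p)))) := by
  rw [Fintype.sum_option]
  have e1 : ∑ j, z none * HH N none j * z j = kα N * z none * (∑ v, z (some v)) := by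
    rw [Fintype.sum_option]
    simp only [HH]
    rw [Finset.mul_sum]
    have : z none * 0 * z none = 0 := by ring
    rw [this, zero_add]
    apply Finset.sum_congr rfl; intro v _; ring
  have e2 : ∑ i : WW N ⊕ WW N, ∑ j, z (some i) * HH N (some i) j * z j
      = kα N * z none * (∑ v, z (some v)) +
        ∑ i : WW N ⊕ WW N, ∑ j : WW N ⊕ WW N, z (some i) * (2 + 2 * kL N * GG N i j) * z (some j) := by
    rw [Finset.mul_sum, ← Finset.sum_add_distrib]
    apply Finset.sum_congr rfl; intro v _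
    rw [Fintype.sum_option]
    simp only [HH]
    congr 1
    ring
  have e3 : ∑ i : WW N ⊕ WW N, ∑ j : WW N ⊕ WW N, z (some i) * (2 + 2 * kL N * GG N i j) * z (some j)
      = 2 * (∑ v, z (some v))^2 + 2 * kL N *
        ∑ i : WW N ⊕ WW N, ∑ j : WW N ⊕ WW N, z (some i) * GG N i j * z (some j) := by
    rw [sq, Finset.sum_mul_sum, Finset.mul_sum, Finset.mul_sum, ← Finset.sum_add_distrib]
    apply Finset.sum_congr rfl; intro v _
    rw [Finset.mul_sum, Finset.mul_sum, ← Finset.sum_add_distrib]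
    apply Finset.sum_congr rfl; intro w _
    ring
  have e4 : ∑ i : WW N ⊕ WW N, ∑ j : WW N ⊕ WW N, z (some i) * GG N i j * z (some j)
      = (∑ i, z (some (Sum.inl (Sum.inl i))))^2
        + 2 * ∑ p : Fin N × Fin N, (z (some (Sum.inl (Sum.inl p.1))) + z (some (Sum.inl (Sum.inl p.2))))
            * z (some (Sum.inl (Sum.inr p))) := by
    simp only [Fintype.sum_sum_type, GG, mul_zero, zero_mul, Finset.sum_const_zero, add_zero,
      mul_one]
    rw [Finset.sum_add_distrib]
    have e5 : ∑ i : Fin N, ∑ j : Fin N, z (some (Sum.inl (Sum.inl i))) * z (some (Sum.inl (Sum.inl j)))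
        = (∑ i, z (some (Sum.inl (Sum.inl i))))^2 := by
      rw [sq, Finset.sum_mul_sum]
    have e6 : ∑ p : Fin N × Fin N, ∑ i : Fin N, z (some (Sum.inl (Sum.inr p))) *
        ((if i = p.1 then 1 else 0) + (if i = p.2 then 1 else 0)) * z (some (Sum.inl (Sum.inl i)))
        = ∑ p : Fin N × Fin N, (z (some (Sum.inl (Sum.inl p.1))) + z (some (Sum.inl (Sum.inl p.2))))
            * z (some (Sum.inl (Sum.inr p))) := by
      apply Finset.sum_congr rfl; intro p _
      have : ∀ i : Fin N, z (some (Sum.inl (Sum.inr p))) *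
        ((if i = p.1 then 1 else 0) + (if i = p.2 then 1 else 0)) * z (some (Sum.inl (Sum.inl i)))
        = (if i = p.1 then z (some (Sum.inl (Sum.inr p))) * z (some (Sum.inl (Sum.inl i))) else 0)
          + (if i = p.2 then z (some (Sum.inl (Sum.inr p))) * z (some (Sum.inl (Sum.inl i))) else 0) := by
        intro i
        split_ifs <;> ring
      rw [Finset.sum_congr rfl (fun i _ => this i), Finset.sum_add_distrib]
      simp only [Finset.sum_ite_eq', Finset.mem_univ, if_true]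
      ring
    have e7 : ∑ i : Fin N, ∑ p : Fin N × Fin N, z (some (Sum.inl (Sum.inl i))) *
        ((if i = p.1 then 1 else 0) + (if i = p.2 then 1 else 0)) * z (some (Sum.inl (Sum.inr p)))
        = ∑ p : Fin N × Fin N, (z (some (Sum.inl (Sum.inl p.1))) + z (some (Sum.inl (Sum.inl p.2))))
            * z (some (Sum.inl (Sum.inr p))) := by
      rw [← e6, Finset.sum_comm]
      apply Finset.sum_congr rfl; intro p _
      apply Finset.sum_congr rfl; intro i _
      ring
    rw [e5, e6, e7]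
    ring
  rw [e1, e2, e3, e4]
  ring

/-- the total linear form -/
theorem σσ_sum (N : ℕ) (a : Finset (Fin N)) (z : II N → ℝ) :
    ∑ v, σσ N a v * z (some v) = (kα N - 2 * kK N) * (∑ v, z (some v))
      - 4 * kL N * N * (∑ i, z (some (Sum.inl (Sum.inl i))))
      - 2 * (∑ i ∈ a, z (some (Sum.inl (Sum.inl i))))
      - 3 * kL N * (∑ p, z (some (Sum.inl (Sum.inr p))))
      - ∑ p ∈ a ×ˢ a, z (some (Sum.inl (Sum.inr p))) := by
  simp only [Fintype.sum_sum_type, σσ]
  have e1 : ∑ i : Fin N, (kα N - 2 * kK N - 4 * kL N * N - (if i ∈ a then 2 else 0)) *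
      z (some (Sum.inl (Sum.inl i))) = (kα N - 2 * kK N) * (∑ i, z (some (Sum.inl (Sum.inl i))))
      - 4 * kL N * N * (∑ i, z (some (Sum.inl (Sum.inl i))))
      - 2 * (∑ i ∈ a, z (some (Sum.inl (Sum.inl i)))) := by
    have h1 : ∑ i ∈ a, z (some (Sum.inl (Sum.inl i))) = ∑ i : Fin N, if i ∈ a then z (some (Sum.inl (Sum.inl i))) else 0 := by
      rw [Finset.sum_ite_mem, Finset.univ_inter]
    rw [h1, Finset.mul_sum, Finset.mul_sum, Finset.mul_sum, ← Finset.sum_sub_distrib,
      ← Finset.sum_sub_distrib]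
    apply Finset.sum_congr rfl; intro i _
    split_ifs <;> ring
  have e2 : ∑ p : Fin N × Fin N, (kα N - 2 * kK N - 3 * kL N - (if p.1 ∈ a ∧ p.2 ∈ a then 1 else 0)) *
      z (some (Sum.inl (Sum.inr p))) = (kα N - 2 * kK N) * (∑ p, z (some (Sum.inl (Sum.inr p))))
      - 3 * kL N * (∑ p, z (some (Sum.inl (Sum.inr p))))
      - ∑ p ∈ a ×ˢ a, z (some (Sum.inl (Sum.inr p))) := by
    have h1 : ∑ p ∈ a ×ˢ a, z (some (Sum.inl (Sum.inr p)))
        = ∑ p : Fin N × Fin N, if p.1 ∈ a ∧ p.2 ∈ a then z (some (Sum.inl (Sum.inr p))) else 0 := by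
      rw [← Finset.sum_filter]
      apply Finset.sum_congr _ (fun _ _ => rfl)
      ext p
      simp
    rw [h1, Finset.mul_sum, Finset.mul_sum, ← Finset.sum_sub_distrib,
      ← Finset.sum_sub_distrib]
    apply Finset.sum_congr rfl; intro i _
    split_ifs <;> ring
  rw [e1, e2]
  have e3 : ∀ (c : ℝ) (f : WW N → ℝ), ∑ i : Fin N, c * f (Sum.inl i) = c * ∑ i : Fin N, f (Sum.inl i) := by
    intro c f; rw [Finset.mul_sum]
  rw [← Finset.mul_sum, ← Finset.mul_sum]
  ring

/-- `H_a` -/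
noncomputable def Ha (N : ℕ) (a : Finset (Fin N)) (z : II N → ℝ) : ℝ :=
  (1/2) * (∑ i, ∑ j, z i * HH N i j * z j) - s0 N a * z none + ∑ v, σσ N a v * z (some v)

/-- the special index equal to `-1` -/
theorem Ha_neg_one (N : ℕ) (a : Finset (Fin N)) (z : II N → ℝ) (hz : z none = -1) :
    Ha N a z = ((∑ v, z (some v)) - kK N)^2
      + kL N * (∑ p : Fin N × Fin N,
          (z (some (Sum.inl (Sum.inl p.1))) * z (some (Sum.inl (Sum.inl p.2)))
            - 2 * (z (some (Sum.inl (Sum.inl p.1))) + z (some (Sum.inl (Sum.inl p.2))))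
              * (1 - z (some (Sum.inl (Sum.inr p)))) + 3 * (1 - z (some (Sum.inl (Sum.inr p))))))
      + (1 - 2 * (∑ i ∈ a, z (some (Sum.inl (Sum.inl i))))
          + ∑ p ∈ a ×ˢ a, (1 - z (some (Sum.inl (Sum.inr p))))) := by
  unfold Ha
  rw [HH_quad, σσ_sum, hz]
  have e1 : ∑ p ∈ a ×ˢ a, (1 - z (some (Sum.inl (Sum.inr p))))
      = (a.card : ℝ)^2 - ∑ p ∈ a ×ˢ a, z (some (Sum.inl (Sum.inr p))) := by
    rw [Finset.sum_sub_distrib, Finset.sum_const, Finset.card_product]
    simp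
    ring
  have e2 : ∑ p : Fin N × Fin N,
          (z (some (Sum.inl (Sum.inl p.1))) * z (some (Sum.inl (Sum.inl p.2)))
            - 2 * (z (some (Sum.inl (Sum.inl p.1))) + z (some (Sum.inl (Sum.inl p.2))))
              * (1 - z (some (Sum.inl (Sum.inr p)))) + 3 * (1 - z (some (Sum.inl (Sum.inr p)))))
      = (∑ i, z (some (Sum.inl (Sum.inl i))))^2 - 4 * N * (∑ i, z (some (Sum.inl (Sum.inl i))))
        + 2 * (∑ p : Fin N × Fin N, (z (some (Sum.inl (Sum.inl p.1))) + z (some (Sum.inl (Sum.inl p.2))))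
            * z (some (Sum.inl (Sum.inr p)))) + 3 * (N : ℝ)^2
        - 3 * (∑ p, z (some (Sum.inl (Sum.inr p)))) := by
    have h1 : ∀ p : Fin N × Fin N,
          (z (some (Sum.inl (Sum.inl p.1))) * z (some (Sum.inl (Sum.inl p.2)))
            - 2 * (z (some (Sum.inl (Sum.inl p.1))) + z (some (Sum.inl (Sum.inl p.2))))
              * (1 - z (some (Sum.inl (Sum.inr p)))) + 3 * (1 - z (some (Sum.inl (Sum.inr p)))))
        = z (some (Sum.inl (Sum.inl p.1))) * z (some (Sum.inl (Sum.inl p.2)))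
          - 2 * z (some (Sum.inl (Sum.inl p.1))) - 2 * z (some (Sum.inl (Sum.inl p.2)))
          + 2 * ((z (some (Sum.inl (Sum.inl p.1))) + z (some (Sum.inl (Sum.inl p.2))))
            * z (some (Sum.inl (Sum.inr p)))) + 3 - 3 * z (some (Sum.inl (Sum.inr p))) := by
      intro p; ring
    rw [Finset.sum_congr rfl (fun p _ => h1 p)]
    simp only [Finset.sum_add_distrib, Finset.sum_sub_distrib, ← Finset.mul_sum]
    have h2 : ∑ p : Fin N × Fin N, z (some (Sum.inl (Sum.inl p.1))) * z (some (Sum.inl (Sum.inl p.2)))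
        = (∑ i, z (some (Sum.inl (Sum.inl i))))^2 := by
      rw [sq, Finset.sum_mul_sum, Fintype.sum_prod_type]
    have h3 : ∑ p : Fin N × Fin N, z (some (Sum.inl (Sum.inl p.1)))
        = N * ∑ i, z (some (Sum.inl (Sum.inl i))) := by
      rw [Fintype.sum_prod_type, Finset.mul_sum]
      apply Finset.sum_congr rfl; intro i _
      simp
    have h4 : ∑ p : Fin N × Fin N, z (some (Sum.inl (Sum.inl p.2)))
        = N * ∑ i, z (some (Sum.inl (Sum.inl i))) := by
      rw [Fintype.sum_prod_type]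
      simp
    rw [h2, h3, h4]
    simp
    ring
  rw [e1, e2]
  unfold s0
  ring

theorem Ha_zero_nonneg (N : ℕ) (a : Finset (Fin N)) (z : II N → ℝ) (hz : z none = 0)
    (h01 : ∀ v, z (some v) = 0 ∨ z (some v) = 1) : 0 ≤ Ha N a z := by
  unfold Ha
  rw [HH_quad, hz]
  have h0 : ∀ v, 0 ≤ z (some v) := by
    intro v; rcases h01 v with h | h <;> rw [h]; norm_num
  have h1 : 0 ≤ ∑ v, σσ N a v * z (some v) :=
    Finset.sum_nonneg (fun v _ => mul_nonneg (σσ_nonneg N a v) (h0 v))
  have h2 : 0 ≤ ∑ p : Fin N × Fin N, (z (some (Sum.inl (Sum.inl p.1))) + z (some (Sum.inl (Sum.inl p.2))))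
            * z (some (Sum.inl (Sum.inr p))) :=
    Finset.sum_nonneg (fun p _ => mul_nonneg (add_nonneg (h0 _) (h0 _)) (h0 _))
  have h3 := kL_nonneg N
  have h4 : 0 ≤ 2 * kL N * ((∑ i, z (some (Sum.inl (Sum.inl i))))^2
        + 2 * ∑ p : Fin N × Fin N, (z (some (Sum.inl (Sum.inl p.1))) + z (some (Sum.inl (Sum.inl p.2))))
            * z (some (Sum.inl (Sum.inr p)))) := by positivity
  have h5 : 0 ≤ 2 * (∑ v, z (some v))^2 := by positivity
  simp only [mul_zero, zero_mul, sub_zero, zero_add]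
  linarith

theorem Ha_one_nonneg (N : ℕ) (a : Finset (Fin N)) (z : II N → ℝ) (hz : z none = -1)
    (h01 : ∀ v, z (some v) = 0 ∨ z (some v) = 1) : 0 ≤ Ha N a z := by
  rw [Ha_neg_one N a z hz]
  have h0 : ∀ v, 0 ≤ z (some v) := by
    intro v; rcases h01 v with h | h <;> rw [h]; norm_num
  have hle : ∀ v, z (some v) ≤ 1 := by
    intro v; rcases h01 v with h | h <;> rw [h]; norm_num
  set pp : Fin N × Fin N → ℝ := fun p => (z (some (Sum.inl (Sum.inl p.1))) * z (some (Sum.inl (Sum.inl p.2)))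
            - 2 * (z (some (Sum.inl (Sum.inl p.1))) + z (some (Sum.inl (Sum.inl p.2))))
              * (1 - z (some (Sum.inl (Sum.inr p)))) + 3 * (1 - z (some (Sum.inl (Sum.inr p))))) with hpp
  have hp : ∀ p, (pp p = 0 ∧ 1 - z (some (Sum.inl (Sum.inr p))) =
      z (some (Sum.inl (Sum.inl p.1))) * z (some (Sum.inl (Sum.inl p.2)))) ∨ 1 ≤ pp p := by
    intro p
    simp only [hpp]
    rcases h01 (Sum.inl (Sum.inl p.1)) with h | h <;> rcases h01 (Sum.inl (Sum.inl p.2)) with h' | h' <;>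
      rcases h01 (Sum.inl (Sum.inr p)) with h'' | h'' <;> rw [h, h', h''] <;> norm_num
  have hp0 : ∀ p, 0 ≤ pp p := by
    intro p
    rcases hp p with h | h
    · exact h.1.ge
    · linarith
  have hL := kL_nonneg N
  have hsq : 0 ≤ ((∑ v, z (some v)) - kK N)^2 := sq_nonneg _
  by_cases hall : ∀ p, pp p = 0
  · have h1 : ∀ p, 1 - z (some (Sum.inl (Sum.inr p))) =
      z (some (Sum.inl (Sum.inl p.1))) * z (some (Sum.inl (Sum.inl p.2))) := by
      intro p
      rcases hp p with h | h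
      · exact h.2
      · rw [hall p] at h; norm_num at h
    have h2 : ∑ p ∈ a ×ˢ a, (1 - z (some (Sum.inl (Sum.inr p)))) = (∑ i ∈ a, z (some (Sum.inl (Sum.inl i))))^2 := by
      rw [Finset.sum_congr rfl (fun p _ => h1 p), sq, Finset.sum_mul_sum, Finset.sum_product]
    have h3 : ∑ p, pp p = 0 := Finset.sum_eq_zero (fun p _ => hall p)
    rw [h2, h3]
    have : 0 ≤ (1 - ∑ i ∈ a, z (some (Sum.inl (Sum.inl i))))^2 := sq_nonneg _
    nlinarith
  · push Not at hall
    obtain ⟨p0, hp0'⟩ := hall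
    have h1 : 1 ≤ ∑ p, pp p := by
      have h2 : 1 ≤ pp p0 := by
        rcases hp p0 with h | h
        · exact absurd h.1 hp0'
        · exact h
      exact h2.trans (Finset.single_le_sum (fun p _ => hp0 p) (Finset.mem_univ p0))
    have h2 : kL N * 1 ≤ kL N * ∑ p, pp p := mul_le_mul_of_nonneg_left h1 hL
    have h3 : ∑ i ∈ a, z (some (Sum.inl (Sum.inl i))) ≤ N := by
      have : ∑ i ∈ a, z (some (Sum.inl (Sum.inl i))) ≤ ∑ i ∈ a, (1 : ℝ) :=
        Finset.sum_le_sum (fun i _ => hle _)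
      refine this.trans ?_
      rw [Finset.sum_const, nsmul_eq_mul, mul_one]
      have := Finset.card_le_univ a
      simp only [Fintype.card_fin] at this
      exact_mod_cast this
    have h4 : 0 ≤ ∑ p ∈ a ×ˢ a, (1 - z (some (Sum.inl (Sum.inr p)))) :=
      Finset.sum_nonneg (fun p _ => by linarith [hle (Sum.inl (Sum.inr p))])
    have h5 : kL N = 2 * N := rfl
    rw [h5] at h2 ⊢
    linarith

/-- the vector that encodes the set `b` -/
def zb (N : ℕ) (b : Finset (Fin N)) : II N → ℤ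
  | none => -1
  | some (Sum.inl (Sum.inl i)) => if i ∈ b then 1 else 0
  | some (Sum.inl (Sum.inr p)) => 1 - (if p.1 ∈ b then 1 else 0) * (if p.2 ∈ b then 1 else 0)
  | some (Sum.inr (Sum.inl i)) => 1 - (if i ∈ b then 1 else 0)
  | some (Sum.inr (Sum.inr p)) => (if p.1 ∈ b then 1 else 0) * (if p.2 ∈ b then 1 else 0)

theorem Ha_zb (N : ℕ) (a b : Finset (Fin N)) :
    Ha N a (fun i => (zb N b i : ℝ)) = (1 - ((a ∩ b).card : ℝ))^2 := by
  rw [Ha_neg_one N a _ (by simp [zb])]
  have e1 : ∑ v, ((zb N b (some v) : ℤ) : ℝ) = kK N := by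
    simp only [Fintype.sum_sum_type, zb]
    push_cast
    simp only [Finset.sum_sub_distrib]
    have h1 : ∑ i : Fin N, (1 : ℝ) = N := by simp
    have h2 : ∑ i : Fin N × Fin N, (1 : ℝ) = (N : ℝ)^2 := by simp [sq]
    rw [h1, h2]
    unfold kK
    ring
  have e2 : ∀ p : Fin N × Fin N,
      (((zb N b (some (Sum.inl (Sum.inl p.1))) : ℤ) : ℝ) * ((zb N b (some (Sum.inl (Sum.inl p.2))) : ℤ) : ℝ)
            - 2 * (((zb N b (some (Sum.inl (Sum.inl p.1))) : ℤ) : ℝ) + ((zb N b (some (Sum.inl (Sum.inl p.2))) : ℤ) : ℝ))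
              * (1 - ((zb N b (some (Sum.inl (Sum.inr p))) : ℤ) : ℝ)) + 3 * (1 - ((zb N b (some (Sum.inl (Sum.inr p))) : ℤ) : ℝ))) = 0 := by
    intro p
    simp only [zb]
    by_cases h1 : p.1 ∈ b <;> by_cases h2 : p.2 ∈ b <;> simp [h1, h2] <;> norm_num
  have e3 : ∑ i ∈ a, ((zb N b (some (Sum.inl (Sum.inl i))) : ℤ) : ℝ) = ((a ∩ b).card : ℝ) := by
    simp only [zb]
    push_cast
    rw [Finset.sum_ite_mem, Finset.sum_const, nsmul_eq_mul, mul_one]
  have e4 : ∑ p ∈ a ×ˢ a, (1 - ((zb N b (some (Sum.inl (Sum.inr p))) : ℤ) : ℝ)) = ((a ∩ b).card : ℝ)^2 := by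
    have h1 : ∀ p : Fin N × Fin N, (1 - ((zb N b (some (Sum.inl (Sum.inr p))) : ℤ) : ℝ))
        = (if p.1 ∈ b then (1:ℝ) else 0) * (if p.2 ∈ b then 1 else 0) := by
      intro p
      simp only [zb]
      push_cast
      ring
    rw [Finset.sum_congr rfl (fun p _ => h1 p), Finset.sum_product, sq]
    have h2 : ∑ i ∈ a, (if i ∈ b then (1:ℝ) else 0) = ((a ∩ b).card : ℝ) := by
      rw [Finset.sum_ite_mem, Finset.sum_const, nsmul_eq_mul, mul_one]
    rw [← h2, Finset.sum_mul_sum]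
  rw [e1, Finset.sum_congr rfl (fun p _ => e2 p), e3, e4]
  simp
  ring

/-- the points -/
noncomputable def wa (N : ℕ) (τ : ℝ) (a : Finset (Fin N)) : II N → ℝ
  | none => -(1/2) + τ * s0 N a
  | some v => 1/2 - τ * σσ N a v

/-- the unperturbed part -/
noncomputable def UU (N : ℕ) (z : II N → ℝ) : ℝ :=
  (1/2) * (z none * (z none + 1)) + ∑ v, (1/2) * (z (some v) * (z (some v) - 1))

theorem slack_eq (N : ℕ) (τ : ℝ) (a : Finset (Fin N)) (z : II N → ℝ) :
    (1/2) * (∑ i, ∑ j, z i * ((1 : Matrix (II N) (II N) ℝ) i j + τ * HH N i j) * z j)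
      - ∑ i, z i * wa N τ a i = UU N z + τ * Ha N a z := by
  have e1 : ∑ i, ∑ j, z i * ((1 : Matrix (II N) (II N) ℝ) i j + τ * HH N i j) * z j
      = ∑ i, (z i)^2 + τ * ∑ i, ∑ j, z i * HH N i j * z j := by
    rw [Finset.mul_sum, ← Finset.sum_add_distrib]
    apply Finset.sum_congr rfl; intro i _
    have : ∀ j, z i * ((1 : Matrix (II N) (II N) ℝ) i j + τ * HH N i j) * z j
        = (if i = j then z i * z j else 0) + τ * (z i * HH N i j * z j) := by
      intro j
      rw [Matrix.one_apply]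
      split_ifs <;> ring
    rw [Finset.sum_congr rfl (fun j _ => this j), Finset.sum_add_distrib, ← Finset.mul_sum]
    simp [sq]
  have e2 : ∑ i, (z i)^2 = (z none)^2 + ∑ v, (z (some v))^2 := by
    rw [Fintype.sum_option]
  have e3 : ∑ i, z i * wa N τ a i = z none * (-(1/2) + τ * s0 N a)
      + ∑ v, ((1/2) * z (some v) - τ * (σσ N a v * z (some v))) := by
    rw [Fintype.sum_option]
    simp only [wa]
    congr 1
    apply Finset.sum_congr rfl; intro v _
    ring
  have e4 : ∑ v, (1/2) * (z (some v) * (z (some v) - 1)) = (1/2) * ∑ v, (z (some v))^2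
      - (1/2) * ∑ v, z (some v) := by
    rw [Finset.mul_sum, Finset.mul_sum, ← Finset.sum_sub_distrib]
    apply Finset.sum_congr rfl; intro v _
    ring
  rw [e1, e2, e3, Finset.sum_sub_distrib, ← Finset.mul_sum, ← Finset.mul_sum]
  unfold UU Ha
  rw [e4]
  ring

/-- The points lie in the Voronoi cell. -/
theorem slack_nonneg (N : ℕ) (τ : ℝ) (hτ0 : 0 ≤ τ)
    (hτ : τ * (((1/2) * kC N * (Fintype.card (II N) : ℝ) + kC N) * ((Fintype.card (II N) : ℝ) + 4)) ≤ 1)
    (a : Finset (Fin N)) (z : II N → ℤ) :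
    0 ≤ UU N (fun i => (z i : ℝ)) + τ * Ha N a (fun i => (z i : ℝ)) := by
  set d : ℝ := (Fintype.card (II N) : ℝ) with hd
  have hC := kC_ge N
  by_cases h01 : (z none = 0 ∨ z none = -1) ∧ ∀ v, z (some v) = 0 ∨ z (some v) = 1
  · obtain ⟨h0, h1⟩ := h01
    have hU : UU N (fun i => (z i : ℝ)) = 0 := by
      unfold UU
      have e1 : (z none : ℝ) * ((z none : ℝ) + 1) = 0 := by
        rcases h0 with h | h <;> rw [h] <;> norm_num
      have e2 : ∀ v, (1/2 : ℝ) * ((z (some v) : ℝ) * ((z (some v) : ℝ) - 1)) = 0 := by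
        intro v
        rcases h1 v with h | h <;> rw [h] <;> norm_num
      simp only [e1, e2]
      simp
    have h1' : ∀ v, ((z (some v) : ℤ) : ℝ) = 0 ∨ ((z (some v) : ℤ) : ℝ) = 1 := by
      intro v
      rcases h1 v with h | h <;> rw [h] <;> norm_num
    have hH : 0 ≤ Ha N a (fun i => (z i : ℝ)) := by
      rcases h0 with h | h
      · exact Ha_zero_nonneg N a _ (by simp [h]) h1'
      · exact Ha_one_nonneg N a _ (by simp [h]) h1'
    rw [hU]
    have := mul_nonneg hτ0 hH
    linarith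
  · -- U ≥ 1
    have hint : ∀ n : ℤ, 0 ≤ (1/2 : ℝ) * ((n : ℝ) * ((n : ℝ) - 1)) := by
      intro n
      have : 0 ≤ n * (n - 1) := by
        rcases le_or_gt n 0 with h | h
        · nlinarith
        · nlinarith
      have h2 : (0 : ℝ) ≤ (n : ℝ) * ((n : ℝ) - 1) := by exact_mod_cast this
      linarith
    have hint1 : ∀ n : ℤ, n ≠ 0 → n ≠ 1 → 1 ≤ (1/2 : ℝ) * ((n : ℝ) * ((n : ℝ) - 1)) := by
      intro n h0 h1
      have : 2 ≤ n * (n - 1) := by
        rcases lt_or_gt_of_ne h0 with h | h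
        · nlinarith
        · have : 2 ≤ n := by omega
          nlinarith
      have h2 : (2 : ℝ) ≤ (n : ℝ) * ((n : ℝ) - 1) := by exact_mod_cast this
      linarith
    have hnone : ∀ n : ℤ, (1/2 : ℝ) * ((n : ℝ) * ((n : ℝ) + 1)) = (1/2 : ℝ) * (((-n : ℤ) : ℝ) * (((-n : ℤ) : ℝ) - 1)) := by
      intro n; push_cast; ring
    have hU1 : 1 ≤ UU N (fun i => (z i : ℝ)) := by
      unfold UU
      by_cases h0 : z none = 0 ∨ z none = -1
      · have h1 : ¬ ∀ v, z (some v) = 0 ∨ z (some v) = 1 := fun h => h01 ⟨h0, h⟩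
        push Not at h1
        obtain ⟨v, hv0, hv1⟩ := h1
        have h2 := hint1 _ hv0 hv1
        have h3 := Finset.single_le_sum (f := fun v => (1/2 : ℝ) * ((z (some v) : ℝ) * ((z (some v) : ℝ) - 1)))
          (fun v _ => hint (z (some v))) (Finset.mem_univ v)
        have h4 := hint (-(z none))
        rw [← hnone] at h4
        simp only at h3 h4 ⊢
        linarith
      · push Not at h0
        have h2 := hint1 (-(z none)) (by omega) (by omega)
        rw [← hnone] at h2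
        have h3 : 0 ≤ ∑ v, (1/2 : ℝ) * ((z (some v) : ℝ) * ((z (some v) : ℝ) - 1)) :=
          Finset.sum_nonneg (fun v _ => hint (z (some v)))
        simp only at h2 h3 ⊢
        linarith
    -- sum of squares
    have hsq : ∑ i, (z i : ℝ)^2 ≤ 4 * UU N (fun i => (z i : ℝ)) + d := by
      have e1 : ∑ i, (z i : ℝ)^2 = (z none : ℝ)^2 + ∑ v, (z (some v) : ℝ)^2 := by
        rw [Fintype.sum_option]
      have e2 : d = 1 + ∑ v : WW N ⊕ WW N, (1 : ℝ) := by
        rw [hd]
        simp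
        ring
      rw [e1, e2]
      unfold UU
      rw [mul_add, Finset.mul_sum]
      have h1 : (z none : ℝ)^2 ≤ 4 * ((1/2) * ((z none : ℝ) * ((z none : ℝ) + 1))) + 1 := by
        nlinarith [sq_nonneg ((z none : ℝ) + 1)]
      have h2 : ∑ v, (z (some v) : ℝ)^2 ≤ ∑ v, 4 * ((1/2) * ((z (some v) : ℝ) * ((z (some v) : ℝ) - 1)))
          + ∑ v : WW N ⊕ WW N, (1 : ℝ) := by
        rw [← Finset.sum_add_distrib]
        apply Finset.sum_le_sum; intro v _
        nlinarith [sq_nonneg ((z (some v) : ℝ) - 1)]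
      linarith
    have hd0 : 0 ≤ d := by rw [hd]; positivity
    have hsqU : ∑ i, (z i : ℝ)^2 ≤ (d + 4) * UU N (fun i => (z i : ℝ)) := by
      have : d * 1 ≤ d * UU N (fun i => (z i : ℝ)) := mul_le_mul_of_nonneg_left hU1 hd0
      linarith
    -- bound on Ha
    have habs : -(((1/2) * kC N * d + kC N) * ∑ i, (z i : ℝ)^2) ≤ Ha N a (fun i => (z i : ℝ)) := by
      unfold Ha
      have h1 : -(kC N * d * ∑ i, (z i : ℝ)^2) ≤ ∑ i, ∑ j, (z i : ℝ) * HH N i j * (z j : ℝ) := by
        have h2 : ∀ i j, -(kC N * (|(z i : ℝ)| * |(z j : ℝ)|)) ≤ (z i : ℝ) * HH N i j * (z j : ℝ) := by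
          intro i j
          have h3 : |(z i : ℝ) * HH N i j * (z j : ℝ)| ≤ kC N * (|(z i : ℝ)| * |(z j : ℝ)|) := by
            rw [abs_mul, abs_mul, abs_of_nonneg (HH_nonneg N i j)]
            have := mul_le_mul_of_nonneg_right (HH_le N i j)
              (mul_nonneg (abs_nonneg (z i : ℝ)) (abs_nonneg (z j : ℝ)))
            calc |(z i : ℝ)| * HH N i j * |(z j : ℝ)| = HH N i j * (|(z i : ℝ)| * |(z j : ℝ)|) := by ring
              _ ≤ _ := this
          exact (abs_le.mp h3).1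
        have h3 : ∑ i, ∑ j, -(kC N * (|(z i : ℝ)| * |(z j : ℝ)|)) ≤ ∑ i, ∑ j, (z i : ℝ) * HH N i j * (z j : ℝ) :=
          Finset.sum_le_sum (fun i _ => Finset.sum_le_sum (fun j _ => h2 i j))
        have h4 : ∑ i, ∑ j, -(kC N * (|(z i : ℝ)| * |(z j : ℝ)|)) = -(kC N * (∑ i, |(z i : ℝ)|)^2) := by
          rw [sq, Finset.sum_mul_sum, Finset.mul_sum, ← Finset.sum_neg_distrib]
          apply Finset.sum_congr rfl; intro i _
          rw [Finset.mul_sum, ← Finset.sum_neg_distrib]
        have h5 : (∑ i, |(z i : ℝ)|)^2 ≤ d * ∑ i, (z i : ℝ)^2 := by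
          have := sq_sum_le_card_mul_sum_sq (s := (Finset.univ : Finset (II N))) (f := fun i => |(z i : ℝ)|)
          simpa [sq_abs, hd] using this
        rw [h4] at h3
        have := mul_le_mul_of_nonneg_left h5 (by linarith : (0:ℝ) ≤ kC N)
        linarith
      have hzsq : ∀ n : ℤ, |(n : ℝ)| ≤ (n : ℝ)^2 := by
        intro n
        have h4 : |n| ≤ n ^ 2 := by
          rcases eq_or_ne n 0 with h | h
          · subst h; simp
          · rw [← sq_abs]
            have : 1 ≤ |n| := Int.one_le_abs h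
            nlinarith
        exact_mod_cast h4
      have h6 : -(kC N * (z none : ℝ)^2) ≤ - s0 N a * (z none : ℝ) := by
        have h7 : |s0 N a * (z none : ℝ)| ≤ kC N * (z none : ℝ)^2 := by
          rw [abs_mul, abs_of_nonneg (s0_nonneg N a)]
          exact mul_le_mul (s0_le N a) (hzsq _) (abs_nonneg _) (by linarith)
        have := (abs_le.mp h7).2
        linarith
      have h8 : -(kC N * ∑ v, (z (some v) : ℝ)^2) ≤ ∑ v, σσ N a v * (z (some v) : ℝ) := by
        rw [Finset.mul_sum, ← Finset.sum_neg_distrib]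
        apply Finset.sum_le_sum; intro v _
        have h7 : |σσ N a v * (z (some v) : ℝ)| ≤ kC N * (z (some v) : ℝ)^2 := by
          rw [abs_mul, abs_of_nonneg (σσ_nonneg N a v)]
          exact mul_le_mul (σσ_le N a v) (hzsq _) (abs_nonneg _) (by linarith)
        exact (abs_le.mp h7).1
      have e1 : ∑ i, (z i : ℝ)^2 = (z none : ℝ)^2 + ∑ v, (z (some v) : ℝ)^2 := by
        rw [Fintype.sum_option]
      have e2 : ((1/2) * kC N * d + kC N) * ∑ i, (z i : ℝ)^2 = (1/2) * (kC N * d * ∑ i, (z i : ℝ)^2)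
          + kC N * (z none : ℝ)^2 + kC N * ∑ v, (z (some v) : ℝ)^2 := by
        rw [add_mul]
        conv_lhs => rw [e1]
        rw [e1]
        ring
      rw [e2]
      linarith
    have hcoef : 0 ≤ (1/2) * kC N * d + kC N := by positivity
    have hS0 : 0 ≤ ∑ i, (z i : ℝ)^2 := Finset.sum_nonneg (fun i _ => sq_nonneg _)
    have hfin : τ * (((1/2) * kC N * d + kC N) * ∑ i, (z i : ℝ)^2) ≤ UU N (fun i => (z i : ℝ)) := by
      calc τ * (((1/2) * kC N * d + kC N) * ∑ i, (z i : ℝ)^2)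
          ≤ τ * (((1/2) * kC N * d + kC N) * ((d + 4) * UU N (fun i => (z i : ℝ)))) := by gcongr
        _ = (τ * (((1/2) * kC N * d + kC N) * (d + 4))) * UU N (fun i => (z i : ℝ)) := by ring
        _ ≤ 1 * UU N (fun i => (z i : ℝ)) := mul_le_mul_of_nonneg_right hτ (by linarith)
        _ = _ := one_mul _
    have := mul_le_mul_of_nonneg_left habs hτ0
    linarith

theorem UU_zb (N : ℕ) (b : Finset (Fin N)) : UU N (fun i => (zb N b i : ℝ)) = 0 := by
  unfold UU
  have e1 : ((zb N b none : ℤ) : ℝ) * (((zb N b none : ℤ) : ℝ) + 1) = 0 := by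
    simp [zb]
  have e2 : ∀ v, (1/2 : ℝ) * (((zb N b (some v) : ℤ) : ℝ) * (((zb N b (some v) : ℤ) : ℝ) - 1)) = 0 := by
    intro v
    rcases v with (i | p) | (i | p) <;> simp only [zb]
    · split_ifs <;> simp
    · split_ifs <;> simp
    · split_ifs <;> simp
    · split_ifs <;> simp
  simp only [e1, e2]
  simp

end Q54.LatXC
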