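import Mathlib

/-!
Matrices close to the identity whose inverse has nonpositive off-diagonal entries.
-/

namespace Q54.LatXC

open Finset

section

variable {ι : Type*} [Fintype ι] [DecidableEq ι]

theorem quad_lower (E : Matrix ι ι ℝ) (ε : ℝ) (hE0 : ∀ i j, 0 ≤ E i j) (hE : ∀ i j, E i j ≤ ε)
    (hε : 2 * (Fintype.card ι : ℝ) * ε ≤ 1) (z : ι → ℝ) :
    (1/2) * ∑ i, (z i)^2 ≤ ∑ i, ∑ j, z i * (1 + E : Matrix ι ι ℝ) i j * z j := by
  have e1 : ∑ i, ∑ j, z i * (1 + E : Matrix ι ι ℝ) i j * z j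
      = ∑ i, (z i)^2 + ∑ i, ∑ j, z i * E i j * z j := by
    rw [← Finset.sum_add_distrib]
    apply Finset.sum_congr rfl
    intro i _
    have : ∀ j, z i * (1 + E : Matrix ι ι ℝ) i j * z j = (if i = j then z i * z j else 0) + z i * E i j * z j := by
      intro j
      rw [Matrix.add_apply, Matrix.one_apply]
      split_ifs <;> ring
    rw [Finset.sum_congr rfl (fun j _ => this j), Finset.sum_add_distrib]
    simp [sq]
  have e2 : -(ε * (Fintype.card ι : ℝ) * ∑ i, (z i)^2) ≤ ∑ i, ∑ j, z i * E i j * z j := by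
    have h1 : ∀ i j, -(ε * (|z i| * |z j|)) ≤ z i * E i j * z j := by
      intro i j
      have h2 : |z i * E i j * z j| ≤ ε * (|z i| * |z j|) := by
        rw [abs_mul, abs_mul, abs_of_nonneg (hE0 i j)]
        have := mul_le_mul_of_nonneg_right (hE i j) (mul_nonneg (abs_nonneg (z i)) (abs_nonneg (z j)))
        calc |z i| * E i j * |z j| = E i j * (|z i| * |z j|) := by ring
          _ ≤ _ := this
      exact (abs_le.mp h2).1
    have h3 : ∑ i, ∑ j, -(ε * (|z i| * |z j|)) ≤ ∑ i, ∑ j, z i * E i j * z j :=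
      Finset.sum_le_sum (fun i _ => Finset.sum_le_sum (fun j _ => h1 i j))
    have h4 : ∑ i, ∑ j, -(ε * (|z i| * |z j|)) = -(ε * (∑ i, |z i|)^2) := by
      rw [sq, Finset.sum_mul_sum, Finset.mul_sum, ← Finset.sum_neg_distrib]
      apply Finset.sum_congr rfl; intro i _
      rw [Finset.mul_sum, ← Finset.sum_neg_distrib]
    have h5 : (∑ i, |z i|)^2 ≤ (Fintype.card ι : ℝ) * ∑ i, (z i)^2 := by
      have := sq_sum_le_card_mul_sum_sq (s := (Finset.univ : Finset ι)) (f := fun i => |z i|)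
      simpa [sq_abs] using this
    rw [h4] at h3
    by_cases hne : Nonempty ι
    · obtain ⟨i0⟩ := hne
      have hε0 : 0 ≤ ε := (hE0 i0 i0).trans (hE i0 i0)
      have := mul_le_mul_of_nonneg_left h5 hε0
      linarith
    · rw [not_nonempty_iff] at hne
      simp
  rw [e1]
  have h6 : 0 ≤ ∑ i, (z i)^2 := Finset.sum_nonneg (fun i _ => sq_nonneg _)
  nlinarith

theorem isUnit_of_quad (P : Matrix ι ι ℝ)
    (h : ∀ z : ι → ℝ, (1/2) * ∑ i, (z i)^2 ≤ ∑ i, ∑ j, z i * P i j * z j) : IsUnit P.det := by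
  rw [isUnit_iff_ne_zero]
  intro hdet
  obtain ⟨v, hv, hPv⟩ := Matrix.exists_mulVec_eq_zero_iff.mpr hdet
  have h1 := h v
  have h2 : ∑ i, ∑ j, v i * P i j * v j = ∑ i, v i * (P.mulVec v) i := by
    apply Finset.sum_congr rfl; intro i _
    rw [Matrix.mulVec, dotProduct, Finset.mul_sum]
    apply Finset.sum_congr rfl; intro j _
    ring
  rw [h2, hPv] at h1
  simp only [Pi.zero_apply, mul_zero, Finset.sum_const_zero] at h1
  apply hv
  have h3 : ∑ i, (v i)^2 = 0 := le_antisymm (by linarith) (Finset.sum_nonneg (fun i _ => sq_nonneg _))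
  rw [Finset.sum_eq_zero_iff_of_nonneg (fun i _ => sq_nonneg _)] at h3
  funext i
  simpa using h3 i (Finset.mem_univ _)

open scoped MatrixOrder ComplexOrder in
theorem exists_factor (P : Matrix ι ι ℝ) (hs : ∀ i j, P i j = P j i)
    (h : ∀ z : ι → ℝ, (1/2) * ∑ i, (z i)^2 ≤ ∑ i, ∑ j, z i * P i j * z j) :
    ∃ B : Matrix ι ι ℝ, B.transpose * B = P := by
  have hherm : P.IsHermitian := by
    ext i j
    simp [Matrix.conjTranspose_apply, hs i j]
  have hpsd : P.PosSemidef := by
    refine .of_dotProduct_mulVec_nonneg hherm (fun x => ?_)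
    have h1 := h x
    have h2 : star x ⬝ᵥ P.mulVec x = ∑ i, ∑ j, x i * P i j * x j := by
      simp only [dotProduct, Matrix.mulVec, Pi.star_apply, star_trivial, Finset.mul_sum]
      apply Finset.sum_congr rfl; intro i _
      apply Finset.sum_congr rfl; intro j _
      ring
    rw [h2]
    have h3 : 0 ≤ ∑ i, (x i)^2 := Finset.sum_nonneg (fun i _ => sq_nonneg _)
    linarith
  obtain ⟨B, hB⟩ := CStarAlgebra.nonneg_iff_eq_star_mul_self.mp hpsd.nonneg
  refine ⟨B, ?_⟩
  rw [hB, Matrix.star_eq_conjTranspose, Matrix.conjTranspose_eq_transpose_of_trivial]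

theorem inv_signs [Nonempty ι] (E : Matrix ι ι ℝ) (ε : ℝ) (hs : ∀ i j, E i j = E j i)
    (hE0 : ∀ i j, 0 ≤ E i j) (hE : ∀ i j, E i j ≤ ε)
    (hε : 2 * (Fintype.card ι : ℝ)^2 * ε ≤ 1)
    (hlow : ∀ i j, i ≠ j → 2 * (Fintype.card ι : ℝ)^2 * ε^2 ≤ E i j) :
    (∀ i j, i ≠ j → ((1 + E : Matrix ι ι ℝ)⁻¹) i j ≤ 0) ∧
    (∀ i, 0 ≤ ∑ j, ((1 + E : Matrix ι ι ℝ)⁻¹) i j) ∧
    (∀ i j, ((1 + E : Matrix ι ι ℝ)⁻¹) i j = ((1 + E : Matrix ι ι ℝ)⁻¹) j i) := by
  set d : ℝ := (Fintype.card ι : ℝ) with hd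
  have hd1 : 1 ≤ d := by
    rw [hd]; exact_mod_cast Fintype.card_pos
  obtain ⟨i00⟩ := ‹Nonempty ι›
  have hε0 : 0 ≤ ε := (hE0 i00 i00).trans (hE i00 i00)
  have hdε : 2 * d * ε ≤ 1 := by
    have : 2 * d * ε ≤ 2 * d^2 * ε := by
      apply mul_le_mul_of_nonneg_right _ hε0
      nlinarith
    linarith
  have hu := isUnit_of_quad (1 + E : Matrix ι ι ℝ) (quad_lower E ε hE0 hE hdε)
  set Q := (1 + E : Matrix ι ι ℝ)⁻¹ with hQ
  have hPQ : (1 + E) * Q = 1 := Matrix.mul_nonsing_inv _ hu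
  have hrec : ∀ i j, Q i j = (1 : Matrix ι ι ℝ) i j - ∑ k, E i k * Q k j := by
    intro i j
    have := congrFun (congrFun hPQ i) j
    rw [Matrix.add_mul, Matrix.one_mul, Matrix.add_apply, Matrix.mul_apply] at this
    linarith
  -- bound on entries
  have hone : ∀ i j, |(1 : Matrix ι ι ℝ) i j| ≤ 1 := by
    intro i j
    rw [Matrix.one_apply]
    split_ifs <;> simp
  have hbound : ∀ i j, |Q i j| ≤ 2 := by
    obtain ⟨⟨i0, j0⟩, _, hmax⟩ := Finset.exists_max_image (Finset.univ : Finset (ι × ι))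
      (fun p => |Q p.1 p.2|) ⟨(i00, i00), Finset.mem_univ _⟩
    have hM : ∀ i j, |Q i j| ≤ |Q i0 j0| := fun i j => hmax (i, j) (Finset.mem_univ _)
    have h1 : |Q i0 j0| ≤ 1 + d * ε * |Q i0 j0| := by
      conv_lhs => rw [hrec i0 j0]
      refine (abs_sub _ _).trans ?_
      apply add_le_add (hone _ _)
      refine (Finset.abs_sum_le_sum_abs _ _).trans ?_
      have : ∀ k ∈ (Finset.univ : Finset ι), |E i0 k * Q k j0| ≤ ε * |Q i0 j0| := by
        intro k _
        rw [abs_mul, abs_of_nonneg (hE0 _ _)]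
        exact mul_le_mul (hE _ _) (hM _ _) (abs_nonneg _) hε0
      refine (Finset.sum_le_sum this).trans ?_
      rw [Finset.sum_const, nsmul_eq_mul, Finset.card_univ]
      exact le_of_eq (by ring)
    have h2 : |Q i0 j0| ≤ 2 := by
      have h3 : d * ε * |Q i0 j0| ≤ (1/2) * |Q i0 j0| :=
        mul_le_mul_of_nonneg_right (by linarith) (abs_nonneg _)
      linarith
    exact fun i j => (hM i j).trans h2
  refine ⟨?_, ?_, ?_⟩
  · intro i j hij
    have h1 : Q i j = - E i j + ∑ k, E i k * ∑ l, E k l * Q l j := by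
      rw [hrec i j]
      have : ∀ k, E i k * Q k j = E i k * (1 : Matrix ι ι ℝ) k j - E i k * ∑ l, E k l * Q l j := by
        intro k
        rw [hrec k j]; ring
      rw [Finset.sum_congr rfl (fun k _ => this k), Finset.sum_sub_distrib]
      have h2 : ∑ k, E i k * (1 : Matrix ι ι ℝ) k j = E i j := by
        have := Matrix.mul_one E
        have h3 := congrFun (congrFun this i) j
        rwa [Matrix.mul_apply] at h3
      rw [h2, Matrix.one_apply_ne hij]
      ring
    have h2 : ∑ k, E i k * ∑ l, E k l * Q l j ≤ 2 * d^2 * ε^2 := by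
      have h3 : ∀ k ∈ (Finset.univ : Finset ι), E i k * ∑ l, E k l * Q l j ≤ ε * (d * (ε * 2)) := by
        intro k _
        have h4 : |∑ l, E k l * Q l j| ≤ d * (ε * 2) := by
          refine (Finset.abs_sum_le_sum_abs _ _).trans ?_
          have : ∀ l ∈ (Finset.univ : Finset ι), |E k l * Q l j| ≤ ε * 2 := by
            intro l _
            rw [abs_mul, abs_of_nonneg (hE0 _ _)]
            exact mul_le_mul (hE _ _) (hbound _ _) (abs_nonneg _) hε0
          refine (Finset.sum_le_sum this).trans ?_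
          rw [Finset.sum_const, nsmul_eq_mul, Finset.card_univ]
        calc E i k * ∑ l, E k l * Q l j ≤ E i k * |∑ l, E k l * Q l j| :=
              mul_le_mul_of_nonneg_left (le_abs_self _) (hE0 _ _)
          _ ≤ ε * (d * (ε * 2)) := mul_le_mul (hE _ _) h4 (abs_nonneg _) hε0
      refine (Finset.sum_le_sum h3).trans ?_
      rw [Finset.sum_const, nsmul_eq_mul, Finset.card_univ]
      exact le_of_eq (by rw [← hd]; ring)
    have h3 := hlow i j hij
    linarith
  · intro i
    have h1 : ∑ j, Q i j = 1 - ∑ j, ∑ k, E i k * Q k j := by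
      rw [Finset.sum_congr rfl (fun j _ => hrec i j), Finset.sum_sub_distrib]
      congr 1
      simp [Matrix.one_apply]
    have h2 : ∑ j, ∑ k, E i k * Q k j ≤ 2 * d^2 * ε := by
      have h3 : ∀ j ∈ (Finset.univ : Finset ι), ∑ k, E i k * Q k j ≤ d * (ε * 2) := by
        intro j _
        have h4 : ∀ k ∈ (Finset.univ : Finset ι), E i k * Q k j ≤ ε * 2 := by
          intro k _
          calc E i k * Q k j ≤ E i k * |Q k j| := mul_le_mul_of_nonneg_left (le_abs_self _) (hE0 _ _)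
            _ ≤ ε * 2 := mul_le_mul (hE _ _) (hbound _ _) (abs_nonneg _) hε0
        refine (Finset.sum_le_sum h4).trans ?_
        rw [Finset.sum_const, nsmul_eq_mul, Finset.card_univ]
      refine (Finset.sum_le_sum h3).trans ?_
      rw [Finset.sum_const, nsmul_eq_mul, Finset.card_univ]
      exact le_of_eq (by rw [← hd]; ring)
    rw [h1]
    linarith
  · intro i j
    have hP : (1 + E : Matrix ι ι ℝ).transpose = 1 + E := by
      ext a b
      simp only [Matrix.transpose_apply, Matrix.add_apply]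
      rw [hs b a]
      congr 1
      simp [Matrix.one_apply, eq_comm]
    have h1 : Q.transpose = Q := by
      rw [hQ, Matrix.transpose_nonsing_inv, hP]
    calc Q i j = Q.transpose i j := by rw [h1]
      _ = Q j i := rfl

end

end Q54.LatXC
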