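import Pool.Agent.Q54.LatXC.Zono
import Pool.Agent.Q54.LatXC.MMat

/-!
Voronoi cells of full-rank lattices in terms of Gram matrices.
-/

namespace Q54.LatXC

open Finset

section

variable {d : ℕ}

/-- the linear map of a square matrix, with values in Euclidean space -/
noncomputable def matL (C : Matrix (Fin d) (Fin d) ℝ) : (Fin d → ℝ) →ₗ[ℝ] EuclideanSpace ℝ (Fin d) :=
  (WithLp.linearEquiv 2 ℝ (Fin d → ℝ)).symm.toLinearMap ∘ₗ Matrix.mulVecLin C

theorem matL_apply (C : Matrix (Fin d) (Fin d) ℝ) (x : Fin d → ℝ) (i : Fin d) :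
    matL C x i = C.mulVec x i := rfl

/-- the lattice spanned by the columns of a matrix -/
def lat (C : Matrix (Fin d) (Fin d) ℝ) : Set (EuclideanSpace ℝ (Fin d)) :=
  {x | ∃ m : Fin d → ℤ, x = matL C (fun i => (m i : ℝ))}

theorem inner_matL (C D : Matrix (Fin d) (Fin d) ℝ) (x y : Fin d → ℝ) :
    inner ℝ (matL C x) (matL D y) = ∑ i, ∑ j, x i * (C.transpose * D) i j * y j := by
  have e1 : inner ℝ (matL C x) (matL D y) = ∑ l, (C.mulVec x) l * (D.mulVec y) l := by
    rw [PiLp.inner_apply]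
    apply Finset.sum_congr rfl; intro l _
    rw [matL_apply, matL_apply]
    simp [mul_comm]
  rw [e1]
  have e2 : ∀ l, (C.mulVec x) l * (D.mulVec y) l = ∑ i, ∑ j, x i * (C l i * D l j) * y j := by
    intro l
    simp only [Matrix.mulVec, dotProduct]
    rw [Finset.sum_mul_sum]
    apply Finset.sum_congr rfl; intro i _
    apply Finset.sum_congr rfl; intro j _
    ring
  rw [Finset.sum_congr rfl (fun l _ => e2 l), Finset.sum_comm]
  apply Finset.sum_congr rfl; intro i _
  rw [Finset.sum_comm]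
  apply Finset.sum_congr rfl; intro j _
  rw [Matrix.mul_apply, Finset.mul_sum, Finset.sum_mul]
  apply Finset.sum_congr rfl; intro l _
  rw [Matrix.transpose_apply]

theorem inner_matL_one (C D : Matrix (Fin d) (Fin d) ℝ) (h : C.transpose * D = 1) (x y : Fin d → ℝ) :
    inner ℝ (matL C x) (matL D y) = ∑ i, y i * x i := by
  rw [inner_matL, h]
  apply Finset.sum_congr rfl; intro i _
  simp only [Matrix.one_apply, mul_ite, mul_one, mul_zero, ite_mul, zero_mul, Finset.sum_ite_eq,
    Finset.mem_univ, if_true]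
  ring

theorem matL_surj (C : Matrix (Fin d) (Fin d) ℝ) (hC : IsUnit C.det) (x : EuclideanSpace ℝ (Fin d)) :
    ∃ w, x = matL C w := by
  refine ⟨C⁻¹.mulVec (fun i => x i), ?_⟩
  ext i
  rw [matL_apply, Matrix.mulVec_mulVec, Matrix.mul_nonsing_inv _ hC, Matrix.one_mulVec]

theorem matL_inj (C : Matrix (Fin d) (Fin d) ℝ) (hC : IsUnit C.det) : Function.Injective (matL C) := by
  intro x y hxy
  have h1 : C.mulVec x = C.mulVec y := by
    funext i
    rw [← matL_apply, ← matL_apply, hxy]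
  have h2 := congrArg (fun v => C⁻¹.mulVec v) h1
  simpa [Matrix.mulVec_mulVec, Matrix.nonsing_inv_mul _ hC] using h2

theorem span_lat (C : Matrix (Fin d) (Fin d) ℝ) (hC : IsUnit C.det) :
    Submodule.span ℝ (lat C) = ⊤ := by
  rw [eq_top_iff]
  intro x _
  obtain ⟨w, rfl⟩ := matL_surj C hC x
  have hw : w = ∑ i, w i • (Pi.single i (1:ℝ) : Fin d → ℝ) := by
    funext l
    rw [Finset.sum_apply]
    simp [Pi.single_apply]
  rw [hw, map_sum]
  apply Submodule.sum_mem
  intro i _
  rw [map_smul]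
  apply Submodule.smul_mem
  apply Submodule.subset_span
  refine ⟨Pi.single i 1, ?_⟩
  congr 1
  funext l
  by_cases h : l = i
  · subst h; simp
  · simp [Pi.single_apply, h]

theorem isLattice_lat (C : Matrix (Fin d) (Fin d) ℝ) (hC : IsUnit C.det) : IsLattice d (lat C) :=
  ⟨matL C, matL_inj C hC, rfl⟩

theorem transpose_inv_mul (C : Matrix (Fin d) (Fin d) ℝ) (hC : IsUnit C.det) :
    ((C.transpose)⁻¹).transpose * C = 1 := by
  rw [Matrix.transpose_nonsing_inv, Matrix.transpose_transpose, Matrix.nonsing_inv_mul _ hC]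

theorem isUnit_tinv (C : Matrix (Fin d) (Fin d) ℝ) (hC : IsUnit C.det) :
    IsUnit ((C.transpose)⁻¹).det := by
  rw [Matrix.isUnit_nonsing_inv_det_iff, Matrix.det_transpose]
  exact hC

theorem norm_le_iff (x z : EuclideanSpace ℝ (Fin d)) :
    ‖x‖ ≤ ‖x - z‖ ↔ inner ℝ x z ≤ (1/2) * inner ℝ z z := by
  have h1 := norm_sub_sq_real x z
  have h2 : inner ℝ z z = ‖z‖^2 := real_inner_self_eq_norm_sq z
  rw [h2]
  constructor
  · intro h
    have h3 : ‖x‖^2 ≤ ‖x - z‖^2 := by gcongr
    linarith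
  · intro h
    have h3 : ‖x‖^2 ≤ ‖x - z‖^2 := by linarith
    exact le_of_sq_le_sq h3 (norm_nonneg _)

theorem VC_lat (C : Matrix (Fin d) (Fin d) ℝ) (hC : IsUnit C.det) :
    VC (lat C) = matL (C.transpose)⁻¹ '' Vor (C.transpose * C) := by
  ext x
  constructor
  · rintro ⟨_, hx⟩
    obtain ⟨w, rfl⟩ := matL_surj _ (isUnit_tinv C hC) x
    refine ⟨w, ?_, rfl⟩
    intro z
    have h1 := hx (matL C (fun i => (z i : ℝ))) ⟨z, rfl⟩
    rw [norm_le_iff, inner_matL_one _ _ (transpose_inv_mul C hC), inner_matL] at h1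
    exact h1
  · rintro ⟨w, hw, rfl⟩
    refine ⟨by rw [span_lat C hC]; trivial, ?_⟩
    rintro _ ⟨z, rfl⟩
    rw [norm_le_iff, inner_matL_one _ _ (transpose_inv_mul C hC), inner_matL]
    exact hw z

theorem dual_lat (C : Matrix (Fin d) (Fin d) ℝ) (hC : IsUnit C.det) :
    dual (lat C) = lat (C.transpose)⁻¹ := by
  ext y
  constructor
  · rintro ⟨_, hy⟩
    obtain ⟨u, rfl⟩ := matL_surj _ (isUnit_tinv C hC) y
    have h1 : ∀ i, ∃ n : ℤ, u i = n := by
      intro i
      obtain ⟨n, hn⟩ := hy (matL C (fun j => (((Pi.single i 1 : Fin d → ℤ) j : ℤ) : ℝ))) ⟨Pi.single i 1, rfl⟩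
      rw [inner_matL_one _ _ (transpose_inv_mul C hC)] at hn
      refine ⟨n, ?_⟩
      rw [← hn]
      have : ∀ j, (((Pi.single i 1 : Fin d → ℤ) j : ℤ) : ℝ) * u j = if j = i then u j else 0 := by
        intro j
        by_cases h : j = i
        · subst h; simp
        · simp [Pi.single_apply, h]
      rw [Finset.sum_congr rfl (fun j _ => this j)]
      simp
    choose m hm using h1
    refine ⟨m, ?_⟩
    congr 1
    funext i
    exact hm i
  · rintro ⟨m, rfl⟩
    refine ⟨by rw [span_lat C hC]; trivial, ?_⟩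
    rintro _ ⟨z, rfl⟩
    rw [inner_matL_one _ _ (transpose_inv_mul C hC)]
    exact ⟨∑ i, z i * m i, by push_cast; rfl⟩

/-- A bounded set cut out by inequalities indexed by a finite type is a polytope. -/
theorem isPolytope_of_fintype {k : ℕ} {ι : Type*} [Fintype ι] (Q : Set (Fin k → ℝ))
    (hb : Bornology.IsBounded Q) (A : ι → (Fin k → ℝ) →ₗ[ℝ] ℝ) (b : ι → ℝ)
    (hQ : Q = {x | ∀ i, A i x ≤ b i}) : IsPolytope Q := by
  classical
  refine ⟨hb, Fintype.card ι, fun i => A ((Fintype.equivFin ι).symm i),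
    fun i => b ((Fintype.equivFin ι).symm i), ?_⟩
  rw [hQ]
  ext x
  constructor
  · intro hx i
    exact hx _
  · intro hx i
    have := hx (Fintype.equivFin ι i)
    simpa using this

/-- The Voronoi cell is a polytope. -/
theorem vor_polytope (P : Matrix (Fin d) (Fin d) ℝ)
    (h : ∀ z : Fin d → ℝ, (1/2) * ∑ i, (z i)^2 ≤ ∑ i, ∑ j, z i * P i j * z j) :
    IsPolytope (Vor P) := by
  classical
  set R : ℝ := ∑ i, |P i i| with hR
  have hR0 : 0 ≤ R := Finset.sum_nonneg (fun i _ => abs_nonneg _)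
  obtain ⟨M, hM⟩ := exists_nat_ge (4 * R * (d + 1) + 1)
  -- the box
  set box : Finset (Fin d → ℤ) := Fintype.piFinset (fun _ => Finset.Icc (-(M : ℤ)) (M : ℤ)) with hbox
  have hM1 : 1 ≤ (M : ℤ) := by
    have : (1 : ℝ) ≤ M := by
      have : 0 ≤ 4 * R * (d + 1) := by positivity
      linarith
    exact_mod_cast this
  -- bound from the unit vectors
  have hsingle : ∀ (w : Fin d → ℝ) (c : ℤ) (i : Fin d),
      ∑ j, (((Pi.single i c : Fin d → ℤ) j : ℤ) : ℝ) * w j = c * w i := by
    intro w c i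
    have : ∀ j, (((Pi.single i c : Fin d → ℤ) j : ℤ) : ℝ) * w j = if j = i then (c : ℝ) * w j else 0 := by
      intro j
      by_cases h : j = i
      · subst h; simp
      · simp [Pi.single_apply, h]
    rw [Finset.sum_congr rfl (fun j _ => this j)]
    simp
  have hsingle2 : ∀ (c : ℤ) (i : Fin d),
      ∑ j, ∑ k, (((Pi.single i c : Fin d → ℤ) j : ℤ) : ℝ) * P j k * (((Pi.single i c : Fin d → ℤ) k : ℤ) : ℝ)
        = c * c * P i i := by
    intro c i
    have e1 : ∀ j, ∑ k, (((Pi.single i c : Fin d → ℤ) j : ℤ) : ℝ) * P j k * (((Pi.single i c : Fin d → ℤ) k : ℤ) : ℝ)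
        = (((Pi.single i c : Fin d → ℤ) j : ℤ) : ℝ) * (c * P j i) := by
      intro j
      rw [← hsingle (fun k => P j k) c i, Finset.mul_sum]
      apply Finset.sum_congr rfl; intro k _
      ring
    rw [Finset.sum_congr rfl (fun j _ => e1 j), hsingle (fun j => c * P j i) c i]
    ring
  have hbd : ∀ w : Fin d → ℝ, (∀ z ∈ box, ∑ i, (z i : ℝ) * w i ≤ (1/2) * ∑ i, ∑ j, (z i : ℝ) * P i j * (z j : ℝ)) →
      ∀ i, |w i| ≤ R := by
    intro w hw i
    have hmem : ∀ c : ℤ, (c = 1 ∨ c = -1) → (Pi.single i c : Fin d → ℤ) ∈ box := by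
      intro c hc
      rw [hbox, Fintype.mem_piFinset]
      intro j
      rw [Finset.mem_Icc]
      by_cases h : j = i
      · subst h
        rw [Pi.single_eq_same]
        rcases hc with rfl | rfl <;> constructor <;> omega
      · rw [Pi.single_eq_of_ne h]
        constructor <;> omega
    have h1 := hw _ (hmem 1 (Or.inl rfl))
    have h2 := hw _ (hmem (-1) (Or.inr rfl))
    rw [hsingle, hsingle2] at h1 h2
    push_cast at h1 h2
    have h3 : P i i ≤ R := (le_abs_self _).trans
      (Finset.single_le_sum (f := fun i => |P i i|) (fun _ _ => abs_nonneg _) (Finset.mem_univ i))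
    have h4 := h (Pi.single i 1)
    rw [abs_le]
    have h5 : P i i ≤ 2 * R := by linarith
    constructor <;> linarith
  have hdesc : Vor P = {w | ∀ z : box, (∑ i, ((z : Fin d → ℤ) i : ℝ) • (LinearMap.proj i : (Fin d → ℝ) →ₗ[ℝ] ℝ)) w
      ≤ (1/2) * ∑ i, ∑ j, ((z : Fin d → ℤ) i : ℝ) * P i j * ((z : Fin d → ℤ) j : ℝ)} := by
    have happ : ∀ (z : Fin d → ℤ) (w : Fin d → ℝ),
        (∑ i, (z i : ℝ) • (LinearMap.proj i : (Fin d → ℝ) →ₗ[ℝ] ℝ)) w = ∑ i, (z i : ℝ) * w i := by
      intro z w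
      rw [LinearMap.sum_apply]
      apply Finset.sum_congr rfl; intro i _
      simp
    ext w
    constructor
    · intro hw z
      rw [happ]
      exact hw z
    · intro hw
      have hw' : ∀ z ∈ box, ∑ i, (z i : ℝ) * w i ≤ (1/2) * ∑ i, ∑ j, (z i : ℝ) * P i j * (z j : ℝ) := by
        intro z hz
        have := hw ⟨z, hz⟩
        rwa [happ] at this
      have hwR := hbd w hw'
      intro z
      by_cases hz : z ∈ box
      · exact hw' z hz
      · rw [hbox, Fintype.mem_piFinset] at hz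
        push Not at hz
        obtain ⟨j, hj⟩ := hz
        rw [Finset.mem_Icc] at hj
        have hjM : (M : ℝ) ≤ |(z j : ℝ)| := by
          have : (M : ℤ) ≤ |z j| := by
            by_contra hcon
            push Not at hcon
            rw [abs_lt] at hcon
            exact hj ⟨hcon.1.le, hcon.2.le⟩
          exact_mod_cast this
        have h1 : ∑ i, (z i : ℝ) * w i ≤ ∑ i, ((1/8) * (z i : ℝ)^2 + 2 * R^2) := by
          apply Finset.sum_le_sum; intro i _
          have h2 : (z i : ℝ) * w i ≤ |(z i : ℝ)| * R := by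
            calc (z i : ℝ) * w i ≤ |(z i : ℝ) * w i| := le_abs_self _
              _ = |(z i : ℝ)| * |w i| := abs_mul _ _
              _ ≤ |(z i : ℝ)| * R := mul_le_mul_of_nonneg_left (hwR i) (abs_nonneg _)
          have h3 : |(z i : ℝ)|^2 = (z i : ℝ)^2 := sq_abs _
          nlinarith [sq_nonneg (|(z i : ℝ)| - 4 * R)]
        have h2 : ∑ i : Fin d, ((1/8) * (z i : ℝ)^2 + 2 * R^2) = (1/8) * ∑ i, (z i : ℝ)^2 + 2 * d * R^2 := by
          rw [Finset.sum_add_distrib, ← Finset.mul_sum]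
          simp
          ring
        have h3 : (M : ℝ)^2 ≤ ∑ i, (z i : ℝ)^2 := by
          have h4 : (M : ℝ)^2 ≤ (z j : ℝ)^2 := by
            rw [← sq_abs (z j : ℝ)]
            gcongr
          exact h4.trans (Finset.single_le_sum (f := fun i => (z i : ℝ)^2)
            (fun _ _ => sq_nonneg _) (Finset.mem_univ j))
        have h4 : 16 * d * R^2 ≤ (M : ℝ)^2 := by
          have h5 : 4 * R * (d + 1) ≤ M := by linarith
          have h6 : (4 * R * (d + 1))^2 ≤ (M : ℝ)^2 := by gcongr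
          have h7 : (0 : ℝ) ≤ d := by positivity
          have h8 : 0 ≤ R^2 * d^2 := by positivity
          have h9 : 0 ≤ R^2 := by positivity
          nlinarith [mul_nonneg h9 h7]
        have h5 : (1/2) * ∑ i, (z i : ℝ)^2 ≤ ∑ i, ∑ j, (z i : ℝ) * P i j * (z j : ℝ) :=
          h (fun i => (z i : ℝ))
        rw [h2] at h1
        linarith
  refine isPolytope_of_fintype (Vor P) ?_ _ _ hdesc
  apply (Metric.isBounded_closedBall (x := (0 : Fin d → ℝ)) (r := R)).subset
  intro w hw
  rw [mem_closedBall_zero_iff, pi_norm_le_iff_of_nonneg hR0]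
  intro i
  exact hbd w (fun z _ => hw z) i

end

end Q54.LatXC
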