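import Pool.Agent.Q54.LatXC.Facets

/-!
The rectangle bound of Kaibel and Weltge, and the resulting lower bound for extension complexity.
-/

namespace Q54.LatXC

open Finset

section KW

variable {α : Type*} [DecidableEq α]

/-- disjoint pairs in a rectangle -/
def dpairs (A B : Finset (Finset α)) : Finset (Finset α × Finset α) :=
  (A ×ˢ B).filter (fun p => Disjoint p.1 p.2)

theorem mem_dpairs {A B : Finset (Finset α)} {p : Finset α × Finset α} :
    p ∈ dpairs A B ↔ p.1 ∈ A ∧ p.2 ∈ B ∧ Disjoint p.1 p.2 := by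
  simp [dpairs, and_assoc]

theorem kw (S : Finset α) : ∀ (A B : Finset (Finset α)), (∀ a ∈ A, a ⊆ S) → (∀ b ∈ B, b ⊆ S) →
    (∀ a ∈ A, ∀ b ∈ B, (a ∩ b).card ≠ 1) → (dpairs A B).card ≤ 2 ^ S.card := by
  induction S using Finset.induction_on with
  | empty =>
    intro A B hA hB _
    have h : dpairs A B ⊆ {(∅, ∅)} := by
      intro p hp
      rw [mem_dpairs] at hp
      have h1 := Finset.subset_empty.mp (hA _ hp.1)
      have h2 := Finset.subset_empty.mp (hB _ hp.2.1)
      rw [Finset.mem_singleton]
      exact Prod.ext h1 h2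
    simpa using Finset.card_le_card h
  | insert x S hx ih =>
    intro A B hA hB hAB
    set A0 := A.filter (fun a => x ∉ a) with hA0
    set A1 := (A.filter (fun a => x ∈ a)).image (fun a => a.erase x) with hA1
    set B0 := B.filter (fun a => x ∉ a) with hB0
    set B1 := (B.filter (fun a => x ∈ a)).image (fun a => a.erase x) with hB1
    have mA1 : ∀ a, a ∈ A1 → x ∉ a ∧ insert x a ∈ A := by
      intro a ha
      rw [hA1, Finset.mem_image] at ha
      obtain ⟨c, hc, rfl⟩ := ha
      obtain ⟨hc1, hc2⟩ := Finset.mem_filter.mp hc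
      exact ⟨Finset.notMem_erase _ _, by rwa [Finset.insert_erase hc2]⟩
    have mB1 : ∀ a, a ∈ B1 → x ∉ a ∧ insert x a ∈ B := by
      intro a ha
      rw [hB1, Finset.mem_image] at ha
      obtain ⟨c, hc, rfl⟩ := ha
      obtain ⟨hc1, hc2⟩ := Finset.mem_filter.mp hc
      exact ⟨Finset.notMem_erase _ _, by rwa [Finset.insert_erase hc2]⟩
    have mA1' : ∀ a ∈ A, x ∈ a → a.erase x ∈ A1 := by
      intro a ha hxa
      rw [hA1, Finset.mem_image]
      exact ⟨a, Finset.mem_filter.mpr ⟨ha, hxa⟩, rfl⟩
    have mB1' : ∀ a ∈ B, x ∈ a → a.erase x ∈ B1 := by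
      intro a ha hxa
      rw [hB1, Finset.mem_image]
      exact ⟨a, Finset.mem_filter.mpr ⟨ha, hxa⟩, rfl⟩
    have subS : ∀ a : Finset α, a ⊆ insert x S → x ∉ a → a ⊆ S := by
      intro a ha hxa y hy
      rcases Finset.mem_insert.mp (ha hy) with h | h
      · subst h; exact absurd hy hxa
      · exact h
    -- the two rectangles
    have hX : (dpairs (A0 ∪ A1) B0).card ≤ 2 ^ S.card := by
      apply ih
      · intro a ha
        rcases Finset.mem_union.mp ha with h | h
        · obtain ⟨h1, h2⟩ := Finset.mem_filter.mp h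
          exact subS a (hA a h1) h2
        · obtain ⟨h1, h2⟩ := mA1 a h
          exact subS a ((Finset.subset_insert x a).trans (hA _ h2)) h1
      · intro b hb
        obtain ⟨h1, h2⟩ := Finset.mem_filter.mp hb
        exact subS b (hB b h1) h2
      · intro a ha b hb
        obtain ⟨hb1, hb2⟩ := Finset.mem_filter.mp hb
        rcases Finset.mem_union.mp ha with h | h
        · exact hAB a (Finset.mem_filter.mp h).1 b hb1
        · obtain ⟨h1, h2⟩ := mA1 a h
          have := hAB _ h2 b hb1
          rwa [Finset.insert_inter_of_notMem hb2] at this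
    have hY : (dpairs A0 (B0 ∪ B1)).card ≤ 2 ^ S.card := by
      apply ih
      · intro b hb
        obtain ⟨h1, h2⟩ := Finset.mem_filter.mp hb
        exact subS b (hA b h1) h2
      · intro a ha
        rcases Finset.mem_union.mp ha with h | h
        · obtain ⟨h1, h2⟩ := Finset.mem_filter.mp h
          exact subS a (hB a h1) h2
        · obtain ⟨h1, h2⟩ := mB1 a h
          exact subS a ((Finset.subset_insert x a).trans (hB _ h2)) h1
      · intro a ha b hb
        obtain ⟨ha1, ha2⟩ := Finset.mem_filter.mp ha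
        rcases Finset.mem_union.mp hb with h | h
        · exact hAB a ha1 b (Finset.mem_filter.mp h).1
        · obtain ⟨h1, h2⟩ := mB1 b h
          have := hAB a ha1 _ h2
          rwa [Finset.inter_insert_of_notMem ha2] at this
    -- split the disjoint pairs
    set P := dpairs A B with hP
    set P1 := P.filter (fun p => x ∈ p.1 ∨ (x ∉ p.1 ∧ x ∉ p.2 ∧ p.1 ∉ A1)) with hP1
    set P2 := P.filter (fun p => ¬ (x ∈ p.1 ∨ (x ∉ p.1 ∧ x ∉ p.2 ∧ p.1 ∉ A1))) with hP2
    have hsplit : P.card = P1.card + P2.card := by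
      rw [hP1, hP2, Finset.card_filter_add_card_filter_not]
    have hc1 : P1.card ≤ (dpairs (A0 ∪ A1) B0).card := by
      apply Finset.card_le_card_of_injOn (fun p => (p.1.erase x, p.2))
      · intro p hp
        obtain ⟨hpP, hc⟩ := Finset.mem_filter.mp hp
        rw [hP, mem_dpairs] at hpP
        obtain ⟨h1, h2, h3⟩ := hpP
        simp only [Finset.mem_coe, mem_dpairs]
        rcases hc with hc | ⟨hc1, hc2, hc3⟩
        · have hxb : x ∉ p.2 := fun h => (Finset.disjoint_left.mp h3 hc h)
          exact ⟨Finset.mem_union_right _ (mA1' _ h1 hc), Finset.mem_filter.mpr ⟨h2, hxb⟩,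
            Finset.disjoint_of_subset_left (Finset.erase_subset _ _) h3⟩
        · rw [Finset.erase_eq_of_notMem hc1]
          exact ⟨Finset.mem_union_left _ (Finset.mem_filter.mpr ⟨h1, hc1⟩),
            Finset.mem_filter.mpr ⟨h2, hc2⟩, h3⟩
      · intro p hp q hq hpq
        obtain ⟨hpP, hpc⟩ := Finset.mem_filter.mp (Finset.mem_coe.mp hp)
        obtain ⟨hqP, hqc⟩ := Finset.mem_filter.mp (Finset.mem_coe.mp hq)
        rw [hP, mem_dpairs] at hpP hqP
        simp only [Prod.mk.injEq] at hpq
        obtain ⟨e1, e2⟩ := hpq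
        refine Prod.ext ?_ e2
        rcases hpc with hpc | ⟨hp1, _, hp3⟩ <;> rcases hqc with hqc | ⟨hq1, _, hq3⟩
        · rw [← Finset.insert_erase hpc, ← Finset.insert_erase hqc, e1]
        · exfalso
          rw [Finset.erase_eq_of_notMem hq1] at e1
          exact hq3 (e1 ▸ mA1' _ hpP.1 hpc)
        · exfalso
          rw [Finset.erase_eq_of_notMem hp1] at e1
          exact hp3 (e1 ▸ mA1' _ hqP.1 hqc)
        · rwa [Finset.erase_eq_of_notMem hp1, Finset.erase_eq_of_notMem hq1] at e1
    have hc2 : P2.card ≤ (dpairs A0 (B0 ∪ B1)).card := by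
      apply Finset.card_le_card_of_injOn (fun p => (p.1, p.2.erase x))
      · intro p hp
        obtain ⟨hpP, hc⟩ := Finset.mem_filter.mp hp
        rw [hP, mem_dpairs] at hpP
        obtain ⟨h1, h2, h3⟩ := hpP
        push Not at hc
        obtain ⟨hc1, hc2⟩ := hc
        simp only [Finset.mem_coe, mem_dpairs]
        by_cases hxb : x ∈ p.2
        · exact ⟨Finset.mem_filter.mpr ⟨h1, hc1⟩, Finset.mem_union_right _ (mB1' _ h2 hxb),
            Finset.disjoint_of_subset_right (Finset.erase_subset _ _) h3⟩
        · rw [Finset.erase_eq_of_notMem hxb]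
          exact ⟨Finset.mem_filter.mpr ⟨h1, hc1⟩,
            Finset.mem_union_left _ (Finset.mem_filter.mpr ⟨h2, hxb⟩), h3⟩
      · intro p hp q hq hpq
        obtain ⟨hpP, hpc⟩ := Finset.mem_filter.mp (Finset.mem_coe.mp hp)
        obtain ⟨hqP, hqc⟩ := Finset.mem_filter.mp (Finset.mem_coe.mp hq)
        rw [hP, mem_dpairs] at hpP hqP
        simp only [Prod.mk.injEq] at hpq
        obtain ⟨e1, e2⟩ := hpq
        refine Prod.ext e1 ?_
        push Not at hpc hqc
        -- a pair (a, b) with x ∈ b, b ∈ B and a ∈ A1 is impossible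
        have imp : ∀ a b : Finset α, a ∈ A1 → b ∈ B → x ∈ b → Disjoint a b → False := by
          intro a b ha hb hxb hd
          obtain ⟨h1, h2⟩ := mA1 a ha
          apply hAB _ h2 b hb
          rw [Finset.insert_inter_of_mem hxb, Finset.disjoint_iff_inter_eq_empty.mp hd]
          simp
        by_cases hxp : x ∈ p.2 <;> by_cases hxq : x ∈ q.2
        · rw [← Finset.insert_erase hxp, ← Finset.insert_erase hxq, e2]
        · exfalso
          have h1 := hqc.2 hqc.1 hxq
          exact imp p.1 p.2 (e1 ▸ h1) hpP.2.1 hxp hpP.2.2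
        · exfalso
          have h1 := hpc.2 hpc.1 hxp
          exact imp q.1 q.2 (e1 ▸ h1) hqP.2.1 hxq hqP.2.2
        · rwa [Finset.erase_eq_of_notMem hxp, Finset.erase_eq_of_notMem hxq] at e2
    rw [Finset.card_insert_of_notMem hx, pow_succ, hsplit]
    omega

end KW

/-- There are at least `3 ^ N` disjoint pairs of subsets of `Fin N`. -/
theorem three_pow_le (N : ℕ) :
    3 ^ N ≤ (dpairs (Finset.univ : Finset (Finset (Fin N))) Finset.univ).card := by
  have h : (Finset.univ : Finset (Fin N → Fin 3)).card = 3 ^ N := by simp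
  rw [← h]
  apply Finset.card_le_card_of_injOn
    (fun t => (Finset.univ.filter (fun i => t i = 1), Finset.univ.filter (fun i => t i = 2)))
  · intro t _
    simp only [Finset.mem_coe, mem_dpairs]
    refine ⟨Finset.mem_univ _, Finset.mem_univ _, ?_⟩
    rw [Finset.disjoint_left]
    intro i hi hi2
    simp only [Finset.mem_filter, Finset.mem_univ, true_and] at hi hi2
    rw [hi] at hi2
    exact absurd hi2 (by decide)
  · intro t _ u _ htu
    simp only [Prod.mk.injEq] at htu
    obtain ⟨e1, e2⟩ := htu
    funext i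
    have h1 : t i = 1 ↔ u i = 1 := by
      have := Finset.ext_iff.mp e1 i
      simpa using this
    have h2 : t i = 2 ↔ u i = 2 := by
      have := Finset.ext_iff.mp e2 i
      simpa using this
    generalize t i = p at *
    generalize u i = q at *
    revert p q
    decide

/-- The lower bound for a lift: `w a` are points of `P`, `g b` are inequalities valid on `P`, the
slack is zero when `|a ∩ b| = 1` and positive when `a ∩ b = ∅`. -/
theorem lift_lower {V : Type*} [AddCommGroup V] [Module ℝ V] (P : Set V) (N r : ℕ)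
    (w : Finset (Fin N) → V) (g : Finset (Fin N) → V →ₗ[ℝ] ℝ) (β : Finset (Fin N) → ℝ)
    (hw : ∀ a, w a ∈ P) (hg : ∀ b, ∀ x ∈ P, g b x ≤ β b)
    (h1 : ∀ a b, (a ∩ b).card = 1 → g b (w a) = β b)
    (h0 : ∀ a b, Disjoint a b → g b (w a) < β b)
    (hl : HasLift P r) : 3 ^ N ≤ (r + 1) * 2 ^ N := by
  classical
  obtain ⟨k, Q, f, ⟨_, m, A, c, hQ⟩, hr, hf⟩ := hl
  -- lifted points
  have hlift : ∀ a, ∃ x ∈ Q, f x = w a := by
    intro a
    have := hw a
    rw [← hf] at this
    exact this
  choose y hyQ hy using hlift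
  have hfin := facets_finite A c Q hQ
  set 𝓕 : Finset (Set (Fin k → ℝ)) := hfin.toFinset with h𝓕
  have hcard : 𝓕.card = r := by
    rw [← hr, nFacets, h𝓕, Set.ncard_eq_toFinset_card _ hfin]
  -- the rectangle of a facet
  set RA : Set (Fin k → ℝ) → Finset (Finset (Fin N)) :=
    fun G => Finset.univ.filter (fun a => y a ∉ G) with hRA
  set RB : Set (Fin k → ℝ) → Finset (Finset (Fin N)) :=
    fun G => Finset.univ.filter (fun b => b.Nonempty ∧ ∀ x ∈ Q, g b (f x) = β b → x ∈ G) with hRB
  have hvalid : ∀ G, (dpairs (RA G) (RB G)).card ≤ 2 ^ N := by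
    intro G
    have := kw (Finset.univ : Finset (Fin N)) (RA G) (RB G) (fun a _ => Finset.subset_univ _)
      (fun a _ => Finset.subset_univ _) (by
        intro a ha b hb hab
        have ha' := (Finset.mem_filter.mp ha).2
        have hb' := (Finset.mem_filter.mp hb).2.2
        apply ha'
        apply hb' _ (hyQ a)
        rw [hy a]
        exact h1 a b hab)
    simpa using this
  have hcover : (dpairs (Finset.univ : Finset (Finset (Fin N))) Finset.univ) ⊆
      (𝓕.biUnion (fun G => dpairs (RA G) (RB G))) ∪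
        (Finset.univ.image (fun a : Finset (Fin N) => (a, (∅ : Finset (Fin N))))) := by
    intro p hp
    rw [mem_dpairs] at hp
    obtain ⟨_, _, hd⟩ := hp
    by_cases hb : p.2.Nonempty
    · apply Finset.mem_union_left
      rw [Finset.mem_biUnion]
      obtain ⟨i, hi⟩ := hb
      obtain ⟨G, hG, hG1, hG2⟩ := exists_facet A c Q hQ ((g p.2).comp f) (β p.2) (by
          intro x hx
          apply hg
          rw [← hf]
          exact ⟨x, hx, rfl⟩) (by
          refine ⟨y {i}, hyQ _, ?_⟩
          rw [LinearMap.comp_apply, hy]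
          apply h1
          rw [Finset.singleton_inter_of_mem hi]
          simp) (y p.1) (hyQ _) (by
          rw [LinearMap.comp_apply, hy]
          exact h0 _ _ hd)
      refine ⟨G, by rw [h𝓕, Set.Finite.mem_toFinset]; exact hG, ?_⟩
      rw [mem_dpairs]
      refine ⟨?_, ?_, hd⟩
      · rw [hRA]
        simp only [Finset.mem_filter, Finset.mem_univ, true_and]
        exact hG2
      · rw [hRB]
        simp only [Finset.mem_filter, Finset.mem_univ, true_and]
        exact ⟨⟨i, hi⟩, fun x hx h => hG1 x hx h⟩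
    · apply Finset.mem_union_right
      rw [Finset.not_nonempty_iff_eq_empty] at hb
      rw [Finset.mem_image]
      exact ⟨p.1, Finset.mem_univ _, Prod.ext rfl hb.symm⟩
  have h2 := Finset.card_le_card hcover
  have h3 := three_pow_le N
  have h4 : ((𝓕.biUnion (fun G => dpairs (RA G) (RB G))) ∪
        (Finset.univ.image (fun a : Finset (Fin N) => (a, (∅ : Finset (Fin N)))))).card
      ≤ r * 2 ^ N + 2 ^ N := by
    refine (Finset.card_union_le _ _).trans ?_
    apply Nat.add_le_add
    · rw [← hcard]
      exact Finset.card_biUnion_le_card_mul _ _ _ (fun G _ => hvalid G)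
    · refine Finset.card_image_le.trans ?_
      simp
  calc 3 ^ N ≤ _ := h3
    _ ≤ _ := h2
    _ ≤ r * 2 ^ N + 2 ^ N := h4
    _ = (r + 1) * 2 ^ N := by ring

end Q54.LatXC
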