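import Pool.Agent.Q54.LatXC.Gram
import Pool.Agent.Q54.LatXC.Rect
import Pool.Agent.Q54.LatXC.Gadget

/-!
The lattices whose Voronoi cell is easy and whose dual has a hard Voronoi cell.
-/

namespace Q54.LatXC

open Finset

/-- dimension -/
abbrev dN (N : ℕ) : ℕ := Fintype.card (II N)

theorem dN_eq (N : ℕ) : dN N = 2 * (N + N * N) + 1 := by
  simp only [dN, II, WW, Fintype.card_option, Fintype.card_sum, Fintype.card_prod, Fintype.card_fin]
  ring

noncomputable def eN (N : ℕ) : Fin (dN N) ≃ II N := (Fintype.equivFin (II N)).symm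

noncomputable def tau (N : ℕ) : ℝ := 1 / (2 * (dN N : ℝ)^2 * (kC N)^2)

noncomputable def EN (N : ℕ) : Matrix (Fin (dN N)) (Fin (dN N)) ℝ :=
  fun i j => tau N * HH N (eN N i) (eN N j)

theorem dN_pos (N : ℕ) : 1 ≤ (dN N : ℝ) := by
  rw [dN_eq]; push_cast; nlinarith [Nat.cast_nonneg (α := ℝ) N, sq_nonneg (N : ℝ)]

theorem tau_pos (N : ℕ) : 0 < tau N := by
  unfold tau
  have h1 := dN_pos N
  have h2 := kC_ge N
  positivity

theorem tau_mul (N : ℕ) : tau N * (2 * (dN N : ℝ)^2 * (kC N)^2) = 1 := by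
  unfold tau
  have h1 := dN_pos N
  have h2 := kC_ge N
  field_simp

theorem EN_symm (N : ℕ) (i j : Fin (dN N)) : EN N i j = EN N j i := by
  unfold EN; rw [HH_symm]

theorem EN_nonneg (N : ℕ) (i j : Fin (dN N)) : 0 ≤ EN N i j :=
  mul_nonneg (tau_pos N).le (HH_nonneg _ _ _)

theorem EN_le (N : ℕ) (i j : Fin (dN N)) : EN N i j ≤ tau N * kC N :=
  mul_le_mul_of_nonneg_left (HH_le _ _ _) (tau_pos N).le

theorem eps1 (N : ℕ) : 2 * (dN N : ℝ)^2 * (tau N * kC N) ≤ 1 := by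
  have h := tau_mul N
  have h2 := kC_ge N
  have h3 := tau_pos N
  have h4 : 0 ≤ 2 * (dN N : ℝ)^2 * (tau N * kC N) := by positivity
  have h5 : 2 * (dN N : ℝ)^2 * (tau N * kC N) * kC N = 1 := by linarith
  nlinarith

theorem eps2 (N : ℕ) : 2 * (dN N : ℝ) * (tau N * kC N) ≤ 1 := by
  have h := eps1 N
  have h1 := dN_pos N
  have h2 := kC_ge N
  have h3 := tau_pos N
  have h4 : 0 ≤ tau N * kC N := by positivity
  have h5 : 2 * (dN N : ℝ) * (tau N * kC N) ≤ 2 * (dN N : ℝ)^2 * (tau N * kC N) := by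
    apply mul_le_mul_of_nonneg_right _ h4
    nlinarith
  linarith

theorem eps3 (N : ℕ) (i j : Fin (dN N)) (hij : i ≠ j) :
    2 * (dN N : ℝ)^2 * (tau N * kC N)^2 ≤ EN N i j := by
  have h1 : 2 * (dN N : ℝ)^2 * (tau N * kC N)^2 = tau N * (tau N * (2 * (dN N : ℝ)^2 * (kC N)^2)) := by ring
  rw [h1, tau_mul, mul_one]
  unfold EN
  have h2 := HH_low N (eN N i) (eN N j) (fun h => hij ((eN N).injective h))
  have h3 := tau_pos N
  nlinarith

/-- the Gram matrix of the dual lattice -/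
noncomputable def PN (N : ℕ) : Matrix (Fin (dN N)) (Fin (dN N)) ℝ := 1 + EN N

theorem PN_quad (N : ℕ) (z : Fin (dN N) → ℝ) :
    (1/2) * ∑ i, (z i)^2 ≤ ∑ i, ∑ j, z i * PN N i j * z j := by
  apply quad_lower (EN N) (tau N * kC N) (EN_nonneg N) (EN_le N)
  rw [Fintype.card_fin]
  exact eps2 N

theorem PN_symm (N : ℕ) (i j : Fin (dN N)) : PN N i j = PN N j i := by
  unfold PN
  rw [Matrix.add_apply, Matrix.add_apply, EN_symm]
  congr 1
  simp [Matrix.one_apply, eq_comm]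

theorem slackN (N : ℕ) (a : Finset (Fin N)) (z : II N → ℝ) :
    (1/2) * (∑ i, ∑ j, z (eN N i) * PN N i j * z (eN N j))
      - ∑ i, z (eN N i) * wa N (tau N) a (eN N i) = UU N z + tau N * Ha N a z := by
  rw [← slack_eq]
  congr 1
  · congr 1
    rw [← Equiv.sum_comp (eN N) (fun i => ∑ j, z i * ((1 : Matrix (II N) (II N) ℝ) i j + tau N * HH N i j) * z j)]
    apply Finset.sum_congr rfl; intro i _
    rw [← Equiv.sum_comp (eN N) (fun j => z (eN N i) * ((1 : Matrix (II N) (II N) ℝ) (eN N i) j + tau N * HH N (eN N i) j) * z j)]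
    apply Finset.sum_congr rfl; intro j _
    congr 2
    simp only [PN, Matrix.add_apply, EN, Matrix.one_apply, (eN N).injective.eq_iff]
  · rw [← Equiv.sum_comp (eN N) (fun i => z i * wa N (tau N) a i)]

theorem wa_mem (N : ℕ) (a : Finset (Fin N)) : (fun i => wa N (tau N) a (eN N i)) ∈ Vor (PN N) := by
  intro z
  have h1 := slackN N a (fun i => (z ((eN N).symm i) : ℝ))
  simp only [Equiv.symm_apply_apply] at h1
  have h2 := slack_nonneg N (tau N) (tau_pos N).le ?_ a (fun i => z ((eN N).symm i))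
  · linarith
  · have h3 := tau_mul N
    have h4 := dN_pos N
    have h5 := kC_ge N
    have h6 := tau_pos N
    have h7 : (((1/2) * kC N * (dN N : ℝ) + kC N) * ((dN N : ℝ) + 4)) ≤ 2 * (dN N : ℝ)^2 * (kC N)^2 := by
      have h8 : (1/2) * kC N * (dN N : ℝ) + kC N ≤ (3/2) * kC N * (dN N : ℝ) := by nlinarith
      have h9 : (dN N : ℝ) + 4 ≤ 5 * (dN N : ℝ) := by linarith
      calc (((1/2) * kC N * (dN N : ℝ) + kC N) * ((dN N : ℝ) + 4))
          ≤ ((3/2) * kC N * (dN N : ℝ)) * (5 * (dN N : ℝ)) := by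
            apply mul_le_mul h8 h9 (by linarith) (by positivity)
        _ = (15/2) * (kC N * (dN N : ℝ)^2) := by ring
        _ ≤ (2 * kC N) * (kC N * (dN N : ℝ)^2) := by
            apply mul_le_mul_of_nonneg_right (by linarith) (by positivity)
        _ = _ := by ring
    calc tau N * (((1/2) * kC N * (dN N : ℝ) + kC N) * ((dN N : ℝ) + 4))
        ≤ tau N * (2 * (dN N : ℝ)^2 * (kC N)^2) := mul_le_mul_of_nonneg_left h7 h6.le
      _ = 1 := h3
      _ ≤ 1 := le_refl _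

/-- lower bound for lifts of the image of the hard Voronoi cell -/
theorem hard_lower (N : ℕ) (B : Matrix (Fin (dN N)) (Fin (dN N)) ℝ) (hB : IsUnit B.det)
    (hBP : B.transpose * B = PN N) (r : ℕ) (hr : HasLift (VC (lat B)) r) :
    3 ^ N ≤ (r + 1) * 2 ^ N := by
  rw [VC_lat B hB, hBP] at hr
  have hτ := tau_pos N
  have hin : ∀ (w : Fin (dN N) → ℝ) (z : Fin (dN N) → ℝ),
      inner ℝ (matL B z) (matL (B.transpose)⁻¹ w) = ∑ i, z i * w i := by
    intro w z
    rw [real_inner_comm, inner_matL_one _ _ (transpose_inv_mul B hB)]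
  apply lift_lower (matL (B.transpose)⁻¹ '' Vor (PN N)) N r
    (fun a => matL (B.transpose)⁻¹ (fun i => wa N (tau N) a (eN N i)))
    (fun b => (innerₛₗ ℝ (matL B (fun i => (zb N b (eN N i) : ℝ)))))
    (fun b => (1/2) * (∑ i, ∑ j, (zb N b (eN N i) : ℝ) * PN N i j * (zb N b (eN N j) : ℝ)))
  · intro a
    exact ⟨_, wa_mem N a, rfl⟩
  · rintro b _ ⟨w, hw, rfl⟩
    rw [innerₛₗ_apply_apply, hin]
    exact hw (fun i => zb N b (eN N i))
  · intro a b hab
    rw [innerₛₗ_apply_apply, hin]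
    have h1 := slackN N a (fun i => (zb N b i : ℝ))
    rw [UU_zb, Ha_zb, hab] at h1
    norm_num at h1
    norm_num
    linarith
  · intro a b hab
    rw [innerₛₗ_apply_apply, hin]
    have h1 := slackN N a (fun i => (zb N b i : ℝ))
    rw [UU_zb, Ha_zb, Finset.disjoint_iff_inter_eq_empty.mp hab] at h1
    norm_num at h1
    norm_num
    linarith
  · exact hr

theorem exists_lattice (N : ℕ) : ∃ (L : Set (EuclideanSpace ℝ (Fin (dN N)))),
    IsLattice (dN N) L ∧ (∃ r ≤ 2 * (dN N * dN N + dN N), HasLift (VC L) r) ∧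
    (∃ r, HasLift (VC (dual L)) r) ∧ ∀ r, HasLift (VC (dual L)) r → 3 ^ N ≤ (r + 1) * 2 ^ N := by
  obtain ⟨B, hB⟩ := exists_factor (PN N) (PN_symm N) (PN_quad N)
  have hPu : IsUnit (PN N).det := isUnit_of_quad (PN N) (PN_quad N)
  have hBu : IsUnit B.det := by
    rw [← hB, Matrix.det_mul, Matrix.det_transpose] at hPu
    exact isUnit_of_mul_isUnit_left hPu
  set C := (B.transpose)⁻¹ with hC
  have hCu : IsUnit C.det := isUnit_tinv B hBu
  have hCT : (C.transpose)⁻¹ = B := by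
    rw [hC, Matrix.transpose_nonsing_inv, Matrix.transpose_transpose,
      Matrix.nonsing_inv_nonsing_inv _ hBu]
  have hCC : C.transpose * C = (PN N)⁻¹ := by
    rw [hC, Matrix.transpose_nonsing_inv, Matrix.transpose_transpose, ← Matrix.mul_inv_rev, hB]
  refine ⟨lat C, isLattice_lat C hCu, ?_, ?_, ?_⟩
  · rw [VC_lat C hCu, hCC]
    have hne : Nonempty (Fin (dN N)) := ⟨(eN N).symm none⟩
    obtain ⟨h1, h2, h3⟩ := inv_signs (EN N) (tau N * kC N) (EN_symm N) (EN_nonneg N) (EN_le N)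
      (by rw [Fintype.card_fin]; exact eps1 N)
      (by intro i j hij; rw [Fintype.card_fin]; exact eps3 N i j hij)
    have h4 : Vor (PN N)⁻¹ = zmap (PN N)⁻¹ '' {t | ∀ k, |t k| ≤ 1/2} :=
      vor_eq_zmap (PN N)⁻¹ h3 h1 h2
    rw [h4, ← Set.image_comp, ← LinearMap.coe_comp]
    obtain ⟨r, hr, hr2⟩ := exists_lift_of_cube ((matL (C.transpose)⁻¹).comp (zmap (PN N)⁻¹))
    refine ⟨r, ?_, hr2⟩
    simpa using hr
  · rw [dual_lat C hCu, hCT, VC_lat B hBu, hB]
    exact ⟨_, dN N, Vor (PN N), matL (B.transpose)⁻¹, vor_polytope (PN N) (PN_quad N), rfl, rfl⟩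
  · rw [dual_lat C hCu, hCT]
    exact fun r hr => hard_lower N B hBu hB r hr

/-- polynomial versus exponential growth -/
theorem growth (p : Polynomial ℝ) : ∃ N : ℕ, ∀ x : ℕ, x ≤ 2 * (dN N * dN N + dN N) →
    p.eval (x : ℝ) + 1 < (3/2 : ℝ) ^ N := by
  set Cp : ℝ := ∑ i ∈ Finset.range (p.natDegree + 1), |p.coeff i| with hCp
  have hCp0 : 0 ≤ Cp := Finset.sum_nonneg (fun _ _ => abs_nonneg _)
  set k := p.natDegree with hk
  have hev : ∀ x : ℝ, 0 ≤ x → p.eval x ≤ Cp * (1 + x)^k := by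
    intro x hx
    rw [Polynomial.eval_eq_sum_range, hCp, Finset.sum_mul]
    apply Finset.sum_le_sum
    intro i hi
    have hi' : i ≤ k := by
      rw [Finset.mem_range] at hi; omega
    have h1 : x ^ i ≤ (1 + x)^k := by
      calc x ^ i ≤ (1 + x)^i := by gcongr; linarith
        _ ≤ (1 + x)^k := pow_le_pow_right₀ (by linarith) hi'
    calc p.coeff i * x ^ i ≤ |p.coeff i| * x ^ i :=
          mul_le_mul_of_nonneg_right (le_abs_self _) (by positivity)
      _ ≤ |p.coeff i| * (1 + x)^k := mul_le_mul_of_nonneg_left h1 (abs_nonneg _)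
  have htend := tendsto_pow_const_div_const_pow_of_one_lt (4 * k) (r := (3/2 : ℝ)) (by norm_num)
  set D : ℝ := Cp * 61 ^ k + 1 with hD
  have hD0 : 0 < D := by positivity
  have hev2 := htend.eventually_lt_const (show (0 : ℝ) < 1 / D by positivity)
  obtain ⟨N, hN1, hN2⟩ := (hev2.and (Filter.eventually_ge_atTop 1)).exists
  refine ⟨N, ?_⟩
  intro x hx
  have hNr : (1 : ℝ) ≤ N := by exact_mod_cast hN2
  have hdn : (dN N : ℝ) ≤ 5 * (N : ℝ)^2 := by
    rw [dN_eq]; push_cast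
    nlinarith
  have hdn0 : (0 : ℝ) ≤ dN N := by positivity
  have hxr : (x : ℝ) ≤ 2 * ((dN N : ℝ) * dN N + dN N) := by exact_mod_cast hx
  have h1 : 1 + (x : ℝ) ≤ 61 * (N : ℝ)^4 := by
    have h2 : (dN N : ℝ) * dN N ≤ (5 * (N : ℝ)^2) * (5 * (N : ℝ)^2) := by gcongr
    have h3 : (N : ℝ)^2 ≤ (N : ℝ)^4 := pow_le_pow_right₀ hNr (by norm_num)
    have h4 : (1 : ℝ) ≤ (N : ℝ)^4 := one_le_pow₀ hNr
    nlinarith
  have h2 := hev x (by positivity)
  have h3 : (1 + (x : ℝ))^k ≤ 61 ^ k * (N : ℝ)^(4 * k) := by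
    calc (1 + (x : ℝ))^k ≤ (61 * (N : ℝ)^4)^k := by gcongr
      _ = _ := by rw [mul_pow, pow_mul]
  have h4 : p.eval (x : ℝ) + 1 ≤ D * (N : ℝ)^(4 * k) := by
    have h5 : Cp * (1 + (x : ℝ))^k ≤ Cp * (61 ^ k * (N : ℝ)^(4 * k)) := mul_le_mul_of_nonneg_left h3 hCp0
    have h6 : (1 : ℝ) ≤ (N : ℝ)^(4 * k) := one_le_pow₀ hNr
    rw [hD]
    nlinarith
  have h5 : (N : ℝ)^(4 * k) * D < (3/2 : ℝ)^N := by
    rw [div_lt_div_iff₀ (by positivity) hD0] at hN1
    linarith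
  linarith

theorem main (p : Polynomial ℝ) :
    ∃ (d n : ℕ) (L : Set (EuclideanSpace ℝ (Fin n))), 1 ≤ d ∧ IsLattice d L ∧
      (∃ r, HasLift (VC L) r) ∧ (∃ r, HasLift (VC (dual L)) r) ∧
      p.eval (xc (VC L) : ℝ) < (xc (VC (dual L)) : ℝ) := by
  obtain ⟨N, hN⟩ := growth p
  obtain ⟨L, hL, ⟨r, hr, hr2⟩, h2, h3⟩ := exists_lattice N
  refine ⟨dN N, dN N, L, ?_, hL, ⟨r, hr2⟩, h2, ?_⟩
  · rw [dN_eq]; omega
  · have h4 : xc (VC L) ≤ r := Nat.sInf_le hr2
    have h5 := hN (xc (VC L)) (h4.trans hr)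
    have h6 : HasLift (VC (dual L)) (xc (VC (dual L))) := Nat.sInf_mem h2
    have h7 := h3 _ h6
    have h8 : (3/2 : ℝ)^N ≤ (xc (VC (dual L)) : ℝ) + 1 := by
      rw [div_pow, div_le_iff₀ (by positivity)]
      exact_mod_cast h7
    linarith

end Q54.LatXC
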