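import Pool.Agent.Q54.LatXC.Facets

/-!
Voronoi cells of lattices of the first kind of Voronoi are zonotopes with few generators.
-/

namespace Q54.LatXC

open Finset

section

variable {ι : Type*} [Fintype ι]

/-- The Voronoi cell of the lattice with Gram matrix `Q`, in dual coordinates. -/
def Vor (Q : Matrix ι ι ℝ) : Set (ι → ℝ) :=
  {w | ∀ z : ι → ℤ, ∑ i, (z i : ℝ) * w i ≤ (1/2) * ∑ i, ∑ j, (z i : ℝ) * Q i j * (z j : ℝ)}

/-- support function of the zonotope -/
noncomputable def hz (Q : Matrix ι ι ℝ) (z : ι → ℝ) : ℝ :=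
  (1/2) * ((1/2) * ∑ i, ∑ j, (-Q i j) * |z i - z j| + ∑ i, (∑ j, Q i j) * |z i|)

theorem qf_eq (Q : Matrix ι ι ℝ) (hs : ∀ i j, Q i j = Q j i) (z : ι → ℝ) :
    ∑ i, ∑ j, z i * Q i j * z j =
      (1/2) * ∑ i, ∑ j, (-Q i j) * (z i - z j) ^ 2 + ∑ i, (∑ j, Q i j) * (z i) ^ 2 := by
  have e1 : ∑ i, ∑ j, (-Q i j) * (z i - z j) ^ 2 =
      - ∑ i, ∑ j, Q i j * (z i)^2 + 2 * ∑ i, ∑ j, z i * Q i j * z j
        - ∑ i, ∑ j, Q i j * (z j)^2 := by
    rw [Finset.mul_sum, ← Finset.sum_neg_distrib, ← Finset.sum_add_distrib, ← Finset.sum_sub_distrib]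
    apply Finset.sum_congr rfl
    intro i _
    rw [Finset.mul_sum, ← Finset.sum_neg_distrib, ← Finset.sum_add_distrib,
      ← Finset.sum_sub_distrib]
    apply Finset.sum_congr rfl
    intro j _
    ring
  have e2 : ∑ i, ∑ j, Q i j * (z j)^2 = ∑ i, ∑ j, Q i j * (z i)^2 := by
    rw [Finset.sum_comm]
    apply Finset.sum_congr rfl
    intro i _
    apply Finset.sum_congr rfl
    intro j _
    rw [hs]
  have e3 : ∑ i, (∑ j, Q i j) * (z i) ^ 2 = ∑ i, ∑ j, Q i j * (z i)^2 := by
    apply Finset.sum_congr rfl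
    intro i _
    rw [Finset.sum_mul]
  rw [e1, e2, e3]
  ring

theorem hz_neg (Q : Matrix ι ι ℝ) (z : ι → ℝ) : hz Q (-z) = hz Q z := by
  unfold hz
  have e : ∀ i j, |(-z) i - (-z) j| = |z i - z j| := by
    intro i j
    rw [Pi.neg_apply, Pi.neg_apply, ← abs_neg]
    congr 1
    ring
  simp only [e]
  simp only [Pi.neg_apply, abs_neg]

theorem Vor_neg (Q : Matrix ι ι ℝ) (w : ι → ℝ) (hw : w ∈ Vor Q) : -w ∈ Vor Q := by
  intro z
  have h := hw (-z)
  have e1 : ∑ i, (((-z) i : ℤ) : ℝ) * w i = ∑ i, (z i : ℝ) * (-w) i := by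
    apply Finset.sum_congr rfl; intro i _; simp
  have e2 : ∑ i, ∑ j, (((-z) i : ℤ) : ℝ) * Q i j * (((-z) j : ℤ) : ℝ)
      = ∑ i, ∑ j, (z i : ℝ) * Q i j * (z j : ℝ) := by
    apply Finset.sum_congr rfl; intro i _
    apply Finset.sum_congr rfl; intro j _
    simp
  rw [e1, e2] at h
  exact h

variable (Q : Matrix ι ι ℝ) (hs : ∀ i j, Q i j = Q j i) (hoff : ∀ i j, i ≠ j → Q i j ≤ 0)
  (hrow : ∀ i, 0 ≤ ∑ j, Q i j)

include hs in
/-- for 0/1 vectors the two quantities agree -/
theorem hz_ind (c : ι → ℤ) (hc : ∀ i, c i = 0 ∨ c i = 1) :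
    hz Q (fun i => (c i : ℝ)) = (1/2) * ∑ i, ∑ j, (c i : ℝ) * Q i j * (c j : ℝ) := by
  rw [qf_eq Q hs (fun i => (c i : ℝ))]
  unfold hz
  congr 1
  congr 1
  · congr 1
    apply Finset.sum_congr rfl; intro i _
    apply Finset.sum_congr rfl; intro j _
    congr 1
    rcases hc i with h | h <;> rcases hc j with h' | h' <;> simp [h, h']
  · apply Finset.sum_congr rfl; intro i _
    congr 1
    rcases hc i with h | h <;> simp [h]

include hs in
theorem vor_real_aux (n : ℕ) : ∀ z : ι → ℝ, (Finset.univ.filter (fun i => z i ≠ 0)).card = n →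
    ∀ w ∈ Vor Q, ∑ i, z i * w i ≤ hz Q z := by
  classical
  induction n using Nat.strong_induction_on with
  | _ n ih =>
    -- step for a positive coordinate
    have step : ∀ z : ι → ℝ, (Finset.univ.filter (fun i => z i ≠ 0)).card = n →
        (∃ i, 0 < z i) → ∀ w ∈ Vor Q, ∑ i, z i * w i ≤ hz Q z := by
      intro z hz0 hpos w hw
      set T : Finset ι := Finset.univ.filter (fun i => 0 < z i) with hT
      have hTne : T.Nonempty := by
        obtain ⟨i, hi⟩ := hpos
        exact ⟨i, by simp [hT, hi]⟩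
      obtain ⟨i0, hi0T, hi0⟩ := Finset.exists_min_image T z hTne
      set m : ℝ := z i0 with hm
      have hm0 : 0 < m := (Finset.mem_filter.mp hi0T).2
      set c : ι → ℤ := fun i => if 0 < z i then 1 else 0 with hc
      have hc01 : ∀ i, c i = 0 ∨ c i = 1 := by
        intro i; simp only [hc]; split_ifs <;> simp
      set z' : ι → ℝ := fun i => z i - m * (c i : ℝ) with hz'
      have hcT : ∀ i, 0 < z i → (c i : ℝ) = 1 := by intro i hi; simp [hc, hi]
      have hcN : ∀ i, ¬ 0 < z i → (c i : ℝ) = 0 := by intro i hi; simp [hc, hi]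
      have hge : ∀ i, 0 < z i → m ≤ z i := by
        intro i hi
        exact hi0 i (by simp [hT, hi])
      -- support decreases
      have hcard : (Finset.univ.filter (fun i => z' i ≠ 0)).card < n := by
        rw [← hz0]
        apply Finset.card_lt_card
        rw [Finset.ssubset_iff_of_subset]
        · refine ⟨i0, ?_, ?_⟩
          · simp only [Finset.mem_filter, Finset.mem_univ, true_and]
            exact hm0.ne'
          · simp only [Finset.mem_filter, Finset.mem_univ, true_and, not_not]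
            simp only [hz']
            rw [hcT i0 hm0]
            ring_nf
            rw [hm]
            ring
        · intro i hi
          simp only [Finset.mem_filter, Finset.mem_univ, true_and] at hi ⊢
          intro h0
          apply hi
          simp only [hz']
          rw [hcN i (by rw [h0]; exact lt_irrefl _), h0]
          ring
      have h1 := ih _ hcard z' rfl w hw
      have h2 := hw c
      rw [← hz_ind Q hs c hc01] at h2
      have hadd : hz Q z = hz Q z' + m * hz Q (fun i => (c i : ℝ)) := by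
        unfold hz
        have ea : ∀ i j, |z i - z j| = |z' i - z' j| + m * |(c i : ℝ) - (c j : ℝ)| := by
          intro i j
          simp only [hz']
          by_cases hi : 0 < z i <;> by_cases hj : 0 < z j
          · rw [hcT i hi, hcT j hj]; simp
          · rw [hcT i hi, hcN j hj]
            have h3 := hge i hi
            rw [abs_of_nonneg (by linarith), abs_of_nonneg (by linarith)]
            norm_num
            ring
          · rw [hcN i hi, hcT j hj]
            have h3 := hge j hj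
            rw [abs_of_nonpos (by linarith), abs_of_nonpos (by linarith)]
            norm_num
            ring
          · rw [hcN i hi, hcN j hj]; simp
        have eb : ∀ i, |z i| = |z' i| + m * |(c i : ℝ)| := by
          intro i
          simp only [hz']
          by_cases hi : 0 < z i
          · rw [hcT i hi]
            have h3 := hge i hi
            rw [abs_of_nonneg (by linarith), abs_of_nonneg (by linarith)]
            norm_num
          · rw [hcN i hi]; simp
        have e1 : ∑ i, ∑ j, (-Q i j) * |z i - z j| = ∑ i, ∑ j, (-Q i j) * |z' i - z' j|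
            + m * ∑ i, ∑ j, (-Q i j) * |(c i : ℝ) - (c j : ℝ)| := by
          rw [Finset.mul_sum, ← Finset.sum_add_distrib]
          apply Finset.sum_congr rfl; intro i _
          rw [Finset.mul_sum, ← Finset.sum_add_distrib]
          apply Finset.sum_congr rfl; intro j _
          rw [ea i j]; ring
        have e2 : ∑ i, (∑ j, Q i j) * |z i| = ∑ i, (∑ j, Q i j) * |z' i|
            + m * ∑ i, (∑ j, Q i j) * |(c i : ℝ)| := by
          rw [Finset.mul_sum, ← Finset.sum_add_distrib]
          apply Finset.sum_congr rfl; intro i _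
          rw [eb i]; ring
        rw [e1, e2]
        ring
      have hlin : ∑ i, z i * w i = ∑ i, z' i * w i + m * ∑ i, (c i : ℝ) * w i := by
        rw [Finset.mul_sum, ← Finset.sum_add_distrib]
        apply Finset.sum_congr rfl; intro i _
        simp only [hz']
        ring
      rw [hlin, hadd]
      have := mul_le_mul_of_nonneg_left h2 hm0.le
      linarith
    intro z hz0 w hw
    by_cases hpos : ∃ i, 0 < z i
    · exact step z hz0 hpos w hw
    · by_cases hneg : ∃ i, z i < 0
      · have h1 := step (-z) (by simpa using hz0) (by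
          obtain ⟨i, hi⟩ := hneg
          exact ⟨i, by simpa using hi⟩) (-w) (Vor_neg Q w hw)
        rw [hz_neg] at h1
        simpa using h1
      · push Not at hpos hneg
        have hz1 : ∀ i, z i = 0 := fun i => le_antisymm (hpos i) (hneg i)
        have : hz Q z = 0 := by
          unfold hz
          simp [hz1]
        rw [this]
        simp [hz1]

include hs in
theorem vor_real (z w : ι → ℝ) (hw : w ∈ Vor Q) : ∑ i, z i * w i ≤ hz Q z :=
  vor_real_aux Q hs _ z rfl w hw

/-- the linear map from the cube onto the zonotope -/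
noncomputable def zmap : ((ι × ι) ⊕ ι → ℝ) →ₗ[ℝ] (ι → ℝ) where
  toFun t := fun l => (1/2) * ∑ j, (-Q l j) * t (Sum.inl (l, j))
      - (1/2) * ∑ i, (-Q i l) * t (Sum.inl (i, l)) + (∑ j, Q l j) * t (Sum.inr l)
  map_add' := by
    intro s t
    funext l
    simp only [Pi.add_apply, mul_add, Finset.sum_add_distrib]
    ring
  map_smul' := by
    intro c t
    funext l
    simp only [Pi.smul_apply, smul_eq_mul, RingHom.id_apply]
    have e1 : ∑ j, (-Q l j) * (c * t (Sum.inl (l, j))) = c * ∑ j, (-Q l j) * t (Sum.inl (l, j)) := by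
      rw [Finset.mul_sum]; apply Finset.sum_congr rfl; intro j _; ring
    have e2 : ∑ i, (-Q i l) * (c * t (Sum.inl (i, l))) = c * ∑ i, (-Q i l) * t (Sum.inl (i, l)) := by
      rw [Finset.mul_sum]; apply Finset.sum_congr rfl; intro j _; ring
    rw [e1, e2]
    ring

theorem inner_zmap (z : ι → ℝ) (t : (ι × ι) ⊕ ι → ℝ) :
    ∑ l, z l * zmap Q t l = (1/2) * ∑ i, ∑ j, (-Q i j) * (t (Sum.inl (i, j)) * (z i - z j))
      + ∑ i, (∑ j, Q i j) * (t (Sum.inr i) * z i) := by
  have e0 : ∀ l, z l * zmap Q t l = (1/2) * ∑ j, (-Q l j) * (t (Sum.inl (l, j)) * z l)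
      - (1/2) * ∑ i, (-Q i l) * (t (Sum.inl (i, l)) * z l)
      + (∑ j, Q l j) * (t (Sum.inr l) * z l) := by
    intro l
    have e1 : ∑ j, (-Q l j) * (t (Sum.inl (l, j)) * z l) = z l * ∑ j, (-Q l j) * t (Sum.inl (l, j)) := by
      rw [Finset.mul_sum]; apply Finset.sum_congr rfl; intro j _; ring
    have e2 : ∑ i, (-Q i l) * (t (Sum.inl (i, l)) * z l) = z l * ∑ i, (-Q i l) * t (Sum.inl (i, l)) := by
      rw [Finset.mul_sum]; apply Finset.sum_congr rfl; intro j _; ring
    rw [e1, e2]
    simp only [zmap, LinearMap.coe_mk, AddHom.coe_mk]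
    ring
  rw [Finset.sum_congr rfl (fun l _ => e0 l), Finset.sum_add_distrib, Finset.sum_sub_distrib,
    ← Finset.mul_sum, ← Finset.mul_sum]
  have e3 : ∑ l, ∑ i, (-Q i l) * (t (Sum.inl (i, l)) * z l)
      = ∑ i, ∑ j, (-Q i j) * (t (Sum.inl (i, j)) * z j) := Finset.sum_comm
  have e4 : ∑ i, ∑ j, (-Q i j) * (t (Sum.inl (i, j)) * (z i - z j)) =
      ∑ i, ∑ j, (-Q i j) * (t (Sum.inl (i, j)) * z i)
      - ∑ i, ∑ j, (-Q i j) * (t (Sum.inl (i, j)) * z j) := by
    rw [← Finset.sum_sub_distrib]
    apply Finset.sum_congr rfl; intro i _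
    rw [← Finset.sum_sub_distrib]
    apply Finset.sum_congr rfl; intro j _
    ring
  rw [e3, e4]
  ring

include hs hoff hrow in
theorem vor_eq_zmap : Vor Q = zmap Q '' {t | ∀ k, |t k| ≤ 1/2} := by
  classical
  apply Set.Subset.antisymm
  · intro w hw
    by_contra hcon
    -- separation
    have hcube : {t : (ι × ι) ⊕ ι → ℝ | ∀ k, |t k| ≤ 1/2} = Set.pi Set.univ (fun _ => Set.Icc (-(1/2)) (1/2)) := by
      ext t
      simp only [Set.mem_ofPred_eq, Set.mem_pi, Set.mem_univ, true_implies, Set.mem_Icc, abs_le]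
    have hcomp : IsCompact {t : (ι × ι) ⊕ ι → ℝ | ∀ k, |t k| ≤ 1/2} := by
      rw [hcube]
      exact isCompact_univ_pi (fun _ => isCompact_Icc)
    have hconv : Convex ℝ {t : (ι × ι) ⊕ ι → ℝ | ∀ k, |t k| ≤ 1/2} := by
      rw [hcube]
      exact convex_pi (fun _ _ => convex_Icc _ _)
    have hcont : Continuous (zmap Q) := LinearMap.continuous_of_finiteDimensional _
    have h1 : Convex ℝ (zmap Q '' {t | ∀ k, |t k| ≤ 1/2}) := hconv.linear_image _
    have h2 : IsClosed (zmap Q '' {t | ∀ k, |t k| ≤ 1/2}) := (hcomp.image hcont).isClosed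
    obtain ⟨F, u, hF1, hF2⟩ := geometric_hahn_banach_closed_point h1 h2 hcon
    set z : ι → ℝ := fun i => F (Pi.single i 1) with hzdef
    have hFz : ∀ x : ι → ℝ, F x = ∑ i, z i * x i := by
      intro x
      have hx : x = ∑ i, x i • (Pi.single i (1:ℝ) : ι → ℝ) := by
        funext l
        rw [Finset.sum_apply]
        simp [Pi.single_apply]
      conv_lhs => rw [hx]
      rw [map_sum]
      apply Finset.sum_congr rfl
      intro i _
      rw [map_smul, smul_eq_mul, mul_comm]
    set t : (ι × ι) ⊕ ι → ℝ := Sum.elim (fun p => if 0 ≤ z p.1 - z p.2 then 1/2 else -(1/2))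
      (fun i => if 0 ≤ z i then 1/2 else -(1/2)) with ht
    have htm : t ∈ {t : (ι × ι) ⊕ ι → ℝ | ∀ k, |t k| ≤ 1/2} := by
      intro k
      rcases k with k | k
      · simp only [ht, Sum.elim_inl]
        split_ifs <;> norm_num [abs_le]
      · simp only [ht, Sum.elim_inr]
        split_ifs <;> norm_num [abs_le]
    have h3 := hF1 _ ⟨t, htm, rfl⟩
    rw [hFz, inner_zmap] at h3
    have e1 : ∀ i j, t (Sum.inl (i, j)) * (z i - z j) = (1/2) * |z i - z j| := by
      intro i j
      simp only [ht, Sum.elim_inl]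
      split_ifs with h
      · rw [abs_of_nonneg h]
      · rw [abs_of_neg (not_le.mp h)]; ring
    have e2 : ∀ i, t (Sum.inr i) * z i = (1/2) * |z i| := by
      intro i
      simp only [ht, Sum.elim_inr]
      split_ifs with h
      · rw [abs_of_nonneg h]
      · rw [abs_of_neg (not_le.mp h)]; ring
    simp only [e1, e2] at h3
    have h4 := vor_real Q hs z w hw
    have e3 : hz Q z = (1/2) * ∑ i, ∑ j, (-Q i j) * ((1/2) * |z i - z j|)
        + ∑ i, (∑ j, Q i j) * ((1/2) * |z i|) := by
      unfold hz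
      have e4 : ∑ i, ∑ j, (-Q i j) * ((1/2) * |z i - z j|) = (1/2) * ∑ i, ∑ j, (-Q i j) * |z i - z j| := by
        rw [Finset.mul_sum]; apply Finset.sum_congr rfl; intro i _
        rw [Finset.mul_sum]; apply Finset.sum_congr rfl; intro j _
        ring
      have e5 : ∑ i, (∑ j, Q i j) * ((1/2) * |z i|) = (1/2) * ∑ i, (∑ j, Q i j) * |z i| := by
        rw [Finset.mul_sum]; apply Finset.sum_congr rfl; intro i _
        ring
      rw [e4, e5]; ring
    rw [hFz] at hF2
    linarith
  · rintro _ ⟨t, ht, rfl⟩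
    intro z
    have e := inner_zmap Q (fun i => (z i : ℝ)) t
    rw [e, qf_eq Q hs (fun i => (z i : ℝ))]
    have key : ∀ (n : ℤ) (s : ℝ), |s| ≤ 1/2 → s * (n : ℝ) ≤ (1/2) * (n : ℝ) ^ 2 := by
      intro n s hs'
      have h1 : s * (n : ℝ) ≤ |s| * |(n : ℝ)| := by
        rw [← abs_mul]; exact le_abs_self _
      have h2 : |s| * |(n : ℝ)| ≤ (1/2) * |(n : ℝ)| := mul_le_mul_of_nonneg_right hs' (abs_nonneg _)
      have h3 : |(n : ℝ)| ≤ (n : ℝ) ^ 2 := by
        have h4 : |n| ≤ n ^ 2 := by
          rcases eq_or_ne n 0 with h | h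
          · subst h; simp
          · rw [← sq_abs]
            have : 1 ≤ |n| := Int.one_le_abs h
            nlinarith
        exact_mod_cast h4
      linarith
    have i1 : ∑ i, ∑ j, (-Q i j) * (t (Sum.inl (i, j)) * ((z i : ℝ) - (z j : ℝ)))
        ≤ ∑ i, ∑ j, (-Q i j) * ((1/2) * ((z i : ℝ) - (z j : ℝ)) ^ 2) := by
      apply Finset.sum_le_sum; intro i _
      apply Finset.sum_le_sum; intro j _
      by_cases hij : i = j
      · subst hij; simp
      · apply mul_le_mul_of_nonneg_left _ (by linarith [hoff i j hij])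
        have := key (z i - z j) _ (ht (Sum.inl (i, j)))
        push_cast at this
        exact this
    have i2 : ∑ i, (∑ j, Q i j) * (t (Sum.inr i) * (z i : ℝ))
        ≤ ∑ i, (∑ j, Q i j) * ((1/2) * (z i : ℝ) ^ 2) := by
      apply Finset.sum_le_sum; intro i _
      apply mul_le_mul_of_nonneg_left _ (hrow i)
      exact key (z i) _ (ht (Sum.inr i))
    have e4 : ∑ i, ∑ j, (-Q i j) * ((1/2) * ((z i : ℝ) - (z j : ℝ)) ^ 2)
        = (1/2) * ∑ i, ∑ j, (-Q i j) * ((z i : ℝ) - (z j : ℝ)) ^ 2 := by
      rw [Finset.mul_sum]; apply Finset.sum_congr rfl; intro i _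
      rw [Finset.mul_sum]; apply Finset.sum_congr rfl; intro j _
      ring
    have e5 : ∑ i, (∑ j, Q i j) * ((1/2) * (z i : ℝ) ^ 2) = (1/2) * ∑ i, (∑ j, Q i j) * (z i : ℝ) ^ 2 := by
      rw [Finset.mul_sum]; apply Finset.sum_congr rfl; intro i _
      ring
    rw [e4] at i1
    rw [e5] at i2
    linarith

end

/-- A linear image of a cube has a lift with at most twice as many facets as the dimension. -/
theorem exists_lift_of_cube {κ V : Type*} [Fintype κ] [AddCommGroup V] [Module ℝ V]
    (g : (κ → ℝ) →ₗ[ℝ] V) :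
    ∃ r ≤ 2 * Fintype.card κ, HasLift (g '' {t | ∀ k, |t k| ≤ 1/2}) r := by
  classical
  set n := Fintype.card κ with hn
  let e : κ ≃ Fin n := Fintype.equivFin κ
  set Q : Set (Fin n → ℝ) := {t | ∀ k, |t k| ≤ 1/2} with hQ
  set A : Fin (n + n) → (Fin n → ℝ) →ₗ[ℝ] ℝ := fun j =>
    Sum.elim (fun i => LinearMap.proj i) (fun i => -LinearMap.proj i) (finSumFinEquiv.symm j) with hA
  have hQA : Q = {x | ∀ i, A i x ≤ (fun _ => (1/2 : ℝ)) i} := by
    ext x
    constructor
    · intro hx j
      simp only [hA]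
      obtain ⟨j', rfl⟩ := finSumFinEquiv.surjective j
      rw [Equiv.symm_apply_apply]
      rcases j' with i | i
      · simp only [Sum.elim_inl, LinearMap.proj_apply]
        exact (abs_le.mp (hx i)).2
      · simp only [Sum.elim_inr, LinearMap.neg_apply, LinearMap.proj_apply]
        linarith [(abs_le.mp (hx i)).1]
    · intro hx i
      have h1 := hx (finSumFinEquiv (Sum.inl i))
      have h2 := hx (finSumFinEquiv (Sum.inr i))
      simp only [hA, Equiv.symm_apply_apply, Sum.elim_inl, Sum.elim_inr, LinearMap.proj_apply,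
        LinearMap.neg_apply] at h1 h2
      exact abs_le.mpr ⟨by linarith, h1⟩
  have hbd : Bornology.IsBounded Q := by
    apply (Metric.isBounded_closedBall (x := (0 : Fin n → ℝ)) (r := 1/2)).subset
    intro x hx
    rw [mem_closedBall_zero_iff, pi_norm_le_iff_of_nonneg (by norm_num)]
    exact hx
  refine ⟨nFacets Q, ?_, n, Q, g.comp (LinearMap.funLeft ℝ ℝ e), ⟨hbd, n + n, A, _, hQA⟩, rfl, ?_⟩
  · have := nFacets_le A (fun _ => (1/2 : ℝ)) Q hQA
    simp only [Fintype.card_fin] at this
    omega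
  · ext v
    constructor
    · rintro ⟨x, hx, rfl⟩
      exact ⟨fun k => x (e k), fun k => hx (e k), rfl⟩
    · rintro ⟨t, ht, rfl⟩
      refine ⟨fun i => t (e.symm i), fun i => ht (e.symm i), ?_⟩
      rw [LinearMap.comp_apply]
      congr 1
      funext k
      simp [LinearMap.funLeft_apply]

end Q54.LatXC
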